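import Pool.Agent.Q177.TC.Few

/-!
# One bad colour of the edges of `H`, not used on the vertices of `H`
-/

set_option autoImplicit false

namespace Pool.Agent.Q177.TC

open Pool.Agent.Q241.DM Finset

theorem c1 (a b : ℕ) : ({a, b, a} ∪ {a} : Finset ℕ).card ≤ 2 := by
  have h8 : ({a, b, a} ∪ {a} : Finset ℕ) = {a, b} := by
    ext t
    simp only [Finset.mem_union, Finset.mem_insert, Finset.mem_singleton]
    tauto
  rw [h8]
  exact Finset.card_le_two

theorem c2 (a b d : ℕ) : ({a, b, d} ∪ {a} : Finset ℕ).card ≤ 3 := by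
  have h8 : ({a, b, d} ∪ {a} : Finset ℕ) = {a, b, d} := by
    ext t
    simp only [Finset.mem_union, Finset.mem_insert, Finset.mem_singleton]
    tauto
  rw [h8]
  exact Finset.card_le_three

theorem c3 (a b d : ℕ) : ({a, b, d} ∪ {d} : Finset ℕ).card ≤ 3 := by
  have h8 : ({a, b, d} ∪ {d} : Finset ℕ) = {a, b, d} := by
    ext t
    simp only [Finset.mem_union, Finset.mem_insert, Finset.mem_singleton]
    tauto
  rw [h8]
  exact Finset.card_le_three

theorem c4 (a d : ℕ) : ({a, a, d} ∪ {a} : Finset ℕ).card ≤ 2 := by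
  have h8 : ({a, a, d} ∪ {a} : Finset ℕ) = {a, d} := by
    ext t
    simp only [Finset.mem_union, Finset.mem_insert, Finset.mem_singleton]
    tauto
  rw [h8]
  exact Finset.card_le_two

theorem c5 (a b d : ℕ) : ({a, b, d} ∪ {b} : Finset ℕ).card ≤ 3 := by
  have h8 : ({a, b, d} ∪ {b} : Finset ℕ) = {a, b, d} := by
    ext t
    simp only [Finset.mem_union, Finset.mem_insert, Finset.mem_singleton]
    tauto
  rw [h8]
  exact Finset.card_le_three

theorem c6 (a d : ℕ) : ({a, a, d} : Finset ℕ).card ≤ 2 := by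
  have h8 : ({a, a, d} : Finset ℕ) = {a, d} := by
    ext t
    simp only [Finset.mem_insert, Finset.mem_singleton]
    tauto
  rw [h8]
  exact Finset.card_le_two

theorem c7 (a b : ℕ) : ({a, b, a} : Finset ℕ).card ≤ 2 := by
  have h8 : ({a, b, a} : Finset ℕ) = {a, b} := by
    ext t
    simp only [Finset.mem_insert, Finset.mem_singleton]
    tauto
  rw [h8]
  exact Finset.card_le_two

theorem bad {V : Type} [Fintype V] {G : SimpleGraph V} {H : G.Subgraph} {A : Set V}
    (hA : Side G A) (D : ℕ) (hD : ∀ v, (G.neighborSet v).ncard ≤ D)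
    (hH : DistanceThreeMatching G H)
    (g : V → ℕ) (f : Sym2 V → ℕ) (hcol : TotalColouring H.verts H.edgeSet (D + 2) g f)
    (e0 : ℕ) (hge0 : ∀ v ∈ H.verts, g v ≠ e0)
    (hconf : ∀ u v u' v' w z, H.Adj u v → u ∈ A → H.Adj u' v' → u' ∈ A →
      f s(u, v) = f s(u', v') → f s(u, v) ≠ e0 → G.Adj u w → w ≠ v → G.Adj v' z → z ≠ u' →
      ¬ G.Adj w z) : Extends G H (D + 2) g f := by
  classical
  rcases Nat.lt_or_ge D 2 with hD2 | hD2
  · exact small hA D hD2 hD hH g f hcol
  by_cases he0 : e0 < D + 2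
  swap
  · refine free hA D hD hH g f hcol ?_
    intro u v u' v' w z h1 h2 h3 h4 h5 h6 h7 h8 h9
    refine hconf u v u' v' w z h1 h2 h3 h4 h5 ?_ h6 h7 h8 h9
    have := hcol.2.1 s(u, v) h1
    omega
  obtain ⟨hg, hf, hgg, hff, hgf⟩ := id hcol
  let fe : V → ℕ := fun x => f s(x, mate H x)
  have hfe : ∀ x y, H.Adj x y → fe x = fe y := by
    intro x y h
    simp only [fe]
    rw [mate_eq hH h, mate_eq hH h.symm, Sym2.eq_swap]
  -- a matching which covers the vertices of degree `D`
  obtain ⟨M, _, _, hME, hMm, hM1, hM2, _⟩ := Pool.Agent.TH559.LE.cover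
    (univ.filter (fun e : V × V => e.1 ∈ A ∧ G.Adj e.1 e.2)) D (by omega) (by
      intro u
      exact (fst_card (G := G) u _ (by
        intro e he
        rw [Finset.mem_filter, Finset.mem_filter] at he
        exact ⟨he.2, he.1.2.2⟩)).trans (hD u)) (by
      intro u
      exact (snd_card (G := G) u _ (by
        intro e he
        rw [Finset.mem_filter, Finset.mem_filter] at he
        exact ⟨he.2, he.1.2.2⟩)).trans (hD u))
  have hMadj : ∀ e ∈ M, e.1 ∈ A ∧ G.Adj e.1 e.2 := by
    intro e he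
    have := hME he
    rw [Finset.mem_filter] at this
    exact this.2
  have hMcovA : ∀ u ∈ A, (G.neighborSet u).ncard = D → ∃ e ∈ M, e.1 = u := by
    intro u hu h
    apply hM1
    rw [← h, ← Set.ncard_coe_finset]
    refine Set.ncard_congr (fun e _ => e.2) ?_ ?_ ?_
    · intro e he
      rw [Finset.mem_coe, Finset.mem_filter, Finset.mem_filter] at he
      have : G.Adj u e.2 := by
        rw [← he.2]
        exact he.1.2.2
      exact this
    · intro a b ha hb hab
      rw [Finset.mem_coe, Finset.mem_filter] at ha hb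
      exact Prod.ext (ha.2.trans hb.2.symm) hab
    · intro w hw
      refine ⟨(u, w), ?_, rfl⟩
      rw [Finset.mem_coe, Finset.mem_filter, Finset.mem_filter]
      exact ⟨⟨Finset.mem_univ _, hu, hw⟩, rfl⟩
  have hMcovB : ∀ u, u ∉ A → (G.neighborSet u).ncard = D → ∃ e ∈ M, e.2 = u := by
    intro u hu h
    apply hM2
    rw [← h, ← Set.ncard_coe_finset]
    refine Set.ncard_congr (fun e _ => e.1) ?_ ?_ ?_
    · intro e he
      rw [Finset.mem_coe, Finset.mem_filter, Finset.mem_filter] at he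
      have : G.Adj u e.1 := by
        rw [← he.2]
        exact he.1.2.2.symm
      exact this
    · intro a b ha hb hab
      rw [Finset.mem_coe, Finset.mem_filter] at ha hb
      exact Prod.ext hab (ha.2.trans hb.2.symm)
    · intro w hw
      have hw' : G.Adj u w := hw
      refine ⟨(w, u), ?_, rfl⟩
      rw [Finset.mem_coe, Finset.mem_filter, Finset.mem_filter]
      exact ⟨⟨Finset.mem_univ _, mem_side hA hw' hu, hw'.symm⟩, rfl⟩
  -- the vertices of the edges of `H` with colour `e0`
  let Q : V → Prop := fun v => v ∈ H.verts ∧ fe v = e0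
  have hQ : ∀ x y, H.Adj x y → Q x → Q y := by
    intro x y h hx
    exact ⟨H.edge_vert h.symm, by rw [← hfe x y h]; exact hx.2⟩
  let M1 : Finset (V × V) := M.filter (fun e => ¬ Q e.1 ∧ ¬ Q e.2)
  -- the vertices which lose their edge
  let Z : Finset V := univ.filter (fun z => ¬ Q z ∧ ∃ e ∈ M, e.1 = z ∧ Q e.2)
  let W : Finset V := univ.filter (fun w => ¬ Q w ∧ ∃ e ∈ M, e.2 = w ∧ Q e.1)
  have hZ : ∀ z, z ∈ Z ↔ ¬ Q z ∧ ∃ e ∈ M, e.1 = z ∧ Q e.2 := fun z => by
    simp only [Z, Finset.mem_filter, Finset.mem_univ, true_and]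
  have hW : ∀ w, w ∈ W ↔ ¬ Q w ∧ ∃ e ∈ M, e.2 = w ∧ Q e.1 := fun w => by
    simp only [W, Finset.mem_filter, Finset.mem_univ, true_and]
  have hZA : ∀ z ∈ Z, z ∈ A := by
    intro z hz
    obtain ⟨_, e, he, rfl, _⟩ := (hZ z).1 hz
    exact (hMadj e he).1
  have hWA : ∀ w ∈ W, w ∉ A := by
    intro w hw
    obtain ⟨_, e, he, rfl, _⟩ := (hW w).1 hw
    exact (hA _ _ (hMadj e he).2).1 (hMadj e he).1
  -- they are adjacent to vertices of `Q`
  have hZQ : ∀ z ∈ Z, ∃ v, Q v ∧ G.Adj z v := by
    intro z hz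
    obtain ⟨_, e, he, rfl, hq⟩ := (hZ z).1 hz
    exact ⟨e.2, hq, (hMadj e he).2⟩
  have hWQ : ∀ w ∈ W, ∃ v, Q v ∧ G.Adj w v := by
    intro w hw
    obtain ⟨_, e, he, rfl, hq⟩ := (hW w).1 hw
    exact ⟨e.1, hq, (hMadj e he).2.symm⟩
  have hnotH : ∀ x v, ¬ Q x → Q v → G.Adj x v → x ∉ H.verts := by
    intro x v hx hv h hxH
    exact hx (hQ v x (adj_verts hH hv.1 hxH h.symm) hv)
  have hZH : ∀ z ∈ Z, z ∉ H.verts := by
    intro z hz
    obtain ⟨v, hv, h⟩ := hZQ z hz
    exact hnotH z v ((hZ z).1 hz).1 hv h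
  have hWH : ∀ w ∈ W, w ∉ H.verts := by
    intro w hw
    obtain ⟨v, hv, h⟩ := hWQ w hw
    exact hnotH w v ((hW w).1 hw).1 hv h
  -- a maximal matching between them
  obtain ⟨N, hNmem, hNmax⟩ := Finset.exists_max_image
    ((univ.filter (fun e : V × V => e.1 ∈ Z ∧ e.2 ∈ W ∧ G.Adj e.1 e.2)).powerset.filter
      (fun N => ∀ e ∈ N, ∀ e' ∈ N, e.1 = e'.1 ∨ e.2 = e'.2 → e = e')) Finset.card
    ⟨∅, by
      rw [Finset.mem_filter]
      exact ⟨Finset.empty_mem_powerset _, by simp⟩⟩
  rw [Finset.mem_filter, Finset.mem_powerset] at hNmem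
  have hNin : ∀ e ∈ N, e.1 ∈ Z ∧ e.2 ∈ W ∧ G.Adj e.1 e.2 := by
    intro e he
    have := hNmem.1 he
    rw [Finset.mem_filter] at this
    exact this.2
  have hNm := hNmem.2
  let S : V → Prop := fun x => (x ∈ Z ∧ ∀ e ∈ N, e.1 ≠ x) ∨ (x ∈ W ∧ ∀ e ∈ N, e.2 ≠ x)
  have hSH : ∀ x, S x → x ∉ H.verts := by
    rintro x (h | h)
    · exact hZH x h.1
    · exact hWH x h.1
  have hSQ : ∀ x, S x → ∃ v, Q v ∧ G.Adj x v := by
    rintro x (h | h)
    · exact hZQ x h.1
    · exact hWQ x h.1
  have hSind : ∀ x y, x ∈ A → S x → S y → ¬ G.Adj x y := by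
    intro x y hx hSx hSy h
    have hy : y ∉ A := (hA x y h).1 hx
    have hSx' : x ∈ Z ∧ ∀ e ∈ N, e.1 ≠ x := by
      rcases hSx with h1 | h1
      · exact h1
      · exact absurd hx (hWA x h1.1)
    have hSy' : y ∈ W ∧ ∀ e ∈ N, e.2 ≠ y := by
      rcases hSy with h1 | h1
      · exact absurd (hZA y h1.1) hy
      · exact h1
    have hnew : (x, y) ∉ N := fun h1 => hSx'.2 _ h1 rfl
    have := hNmax (insert (x, y) N) (by
      rw [Finset.mem_filter, Finset.mem_powerset]
      constructor
      · intro e he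
        rw [Finset.mem_insert] at he
        rcases he with rfl | he
        · rw [Finset.mem_filter]
          exact ⟨Finset.mem_univ _, hSx'.1, hSy'.1, h⟩
        · exact hNmem.1 he
      · intro e he e' he' hor
        rw [Finset.mem_insert] at he he'
        rcases he with rfl | he
        · rcases he' with rfl | he'
          · rfl
          · rcases hor with h1 | h1
            · exact absurd h1.symm (hSx'.2 e' he')
            · exact absurd h1.symm (hSy'.2 e' he')
        · rcases he' with rfl | he'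
          · rcases hor with h1 | h1
            · exact absurd h1 (hSx'.2 e he)
            · exact absurd h1 (hSy'.2 e he)
          · exact hNm e he e' he' hor)
    rw [Finset.card_insert_of_notMem hnew] at this
    omega
  -- the class of `e0`
  let T : Finset (V × V) := M1 ∪ N
  have hT : ∀ e, e ∈ T ↔ e ∈ M1 ∨ e ∈ N := fun e => Finset.mem_union
  have hM1m : ∀ e, e ∈ M1 ↔ e ∈ M ∧ ¬ Q e.1 ∧ ¬ Q e.2 := fun e => by
    simp only [M1, Finset.mem_filter]
  have hMN1 : ∀ e ∈ M1, ∀ e' ∈ N, e.1 ≠ e'.1 := by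
    intro e he e' he' h
    obtain ⟨_, e2, h2, h3, h4⟩ := (hZ _).1 (hNin e' he').1
    have := hMm e ((hM1m e).1 he).1 e2 h2 (Or.inl (h.trans h3.symm))
    rw [← this] at h4
    exact ((hM1m e).1 he).2.2 h4
  have hMN2 : ∀ e ∈ M1, ∀ e' ∈ N, e.2 ≠ e'.2 := by
    intro e he e' he' h
    obtain ⟨_, e2, h2, h3, h4⟩ := (hW _).1 (hNin e' he').2.1
    have := hMm e ((hM1m e).1 he).1 e2 h2 (Or.inr (h.trans h3.symm))
    rw [← this] at h4
    exact ((hM1m e).1 he).2.1 h4
  have hTm : ∀ e ∈ T, ∀ e' ∈ T, e.1 = e'.1 ∨ e.2 = e'.2 → e = e' := by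
    intro e he e' he' hor
    rw [hT] at he he'
    rcases he with he | he <;> rcases he' with he' | he'
    · exact hMm e ((hM1m e).1 he).1 e' ((hM1m e').1 he').1 hor
    · rcases hor with h | h
      · exact absurd h (hMN1 e he e' he')
      · exact absurd h (hMN2 e he e' he')
    · rcases hor with h | h
      · exact absurd h.symm (hMN1 e' he' e he)
      · exact absurd h.symm (hMN2 e' he' e he)
    · exact hNm e he e' he' hor
  have hTadj : ∀ e ∈ T, e.1 ∈ A ∧ G.Adj e.1 e.2 := by
    intro e he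
    rw [hT] at he
    rcases he with he | he
    · exact hMadj e ((hM1m e).1 he).1
    · exact ⟨hZA _ (hNin e he).1, (hNin e he).2.2⟩
  have hTQ : ∀ e ∈ T, ¬ Q e.1 ∧ ¬ Q e.2 := by
    intro e he
    rw [hT] at he
    rcases he with he | he
    · exact ((hM1m e).1 he).2
    · exact ⟨((hZ _).1 (hNin e he).1).1, ((hW _).1 (hNin e he).2.1).1⟩
  have hTS1 : ∀ e ∈ T, ¬ S e.1 := by
    intro e he hS
    have hS' : e.1 ∈ Z ∧ ∀ e' ∈ N, e'.1 ≠ e.1 := by
      rcases hS with h1 | h1
      · exact h1
      · exact absurd (hTadj e he).1 (hWA _ h1.1)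
    rw [hT] at he
    rcases he with he | he
    · obtain ⟨_, e2, h2, h3, h4⟩ := (hZ _).1 hS'.1
      have := hMm e ((hM1m e).1 he).1 e2 h2 (Or.inl h3.symm)
      rw [← this] at h4
      exact ((hM1m e).1 he).2.2 h4
    · exact hS'.2 e he rfl
  have hTS2 : ∀ e ∈ T, ¬ S e.2 := by
    intro e he hS
    have hS' : e.2 ∈ W ∧ ∀ e' ∈ N, e'.2 ≠ e.2 := by
      rcases hS with h1 | h1
      · exact absurd (hZA _ h1.1) ((hA _ _ (hTadj e he).2).1 (hTadj e he).1)
      · exact h1
    rw [hT] at he
    rcases he with he | he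
    · obtain ⟨_, e2, h2, h3, h4⟩ := (hW _).1 hS'.1
      have := hMm e ((hM1m e).1 he).1 e2 h2 (Or.inr h3.symm)
      rw [← this] at h4
      exact ((hM1m e).1 he).2.1 h4
    · exact hS'.2 e he rfl
  -- every vertex of degree `D` outside `Q` and `S` is covered
  have hcovA : ∀ x ∈ A, (G.neighborSet x).ncard = D → ¬ Q x → ¬ S x → ∃ e ∈ T, e.1 = x := by
    intro x hx hdeg hq hs
    obtain ⟨e, he, rfl⟩ := hMcovA x hx hdeg
    by_cases hq2 : Q e.2
    · have hz : e.1 ∈ Z := (hZ _).2 ⟨hq, e, he, rfl, hq2⟩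
      by_contra hcon
      push Not at hcon
      exact hs (Or.inl ⟨hz, fun e' he' => hcon e' ((hT e').2 (Or.inr he'))⟩)
    · exact ⟨e, (hT e).2 (Or.inl ((hM1m e).2 ⟨he, hq, hq2⟩)), rfl⟩
  have hcovB : ∀ x, x ∉ A → (G.neighborSet x).ncard = D → ¬ Q x → ¬ S x → ∃ e ∈ T, e.2 = x := by
    intro x hx hdeg hq hs
    obtain ⟨e, he, rfl⟩ := hMcovB x hx hdeg
    by_cases hq2 : Q e.1
    · have hz : e.2 ∈ W := (hW _).2 ⟨hq, e, he, rfl, hq2⟩
      by_contra hcon
      push Not at hcon
      exact hs (Or.inr ⟨hz, fun e' he' => hcon e' ((hT e').2 (Or.inr he'))⟩)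
    · exact ⟨e, (hT e).2 (Or.inl ((hM1m e).2 ⟨he, hq2, hq⟩)), rfl⟩
  -- the colours of the vertices
  let C : V → V → Prop := fun w x => x ∈ H.verts ∧ G.Adj x w ∧ w ∉ H.verts ∧ fe x ≠ e0
  let c0 : V → ℕ := fun w => if w ∈ H.verts then g w else if S w then e0 else
    if h : ∃ x, C w x then fe (Classical.choose h) else 0
  have hc0H : ∀ w ∈ H.verts, c0 w = g w := fun w hw => by
    simp only [c0]; rw [if_pos hw]
  have hc0S : ∀ w, S w → c0 w = e0 := fun w hw => by
    simp only [c0]; rw [if_neg (hSH w hw), if_pos hw]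
  have hSC : ∀ w, S w → ∀ x, ¬ C w x := by
    intro w hw x hx
    obtain ⟨v, hv, h⟩ := hSQ w hw
    have := only_one hA hH hv.1 hx.1 h hx.2.1.symm
    rw [this] at hv
    exact hx.2.2.2 hv.2
  have hc0C : ∀ w x, C w x → c0 w = fe x := by
    intro w x hx
    have h : ∃ x, C w x := ⟨x, hx⟩
    simp only [c0]
    rw [if_neg hx.2.2.1, if_neg (fun hs => hSC w hs x hx), dif_pos h]
    have h1 := Classical.choose_spec h
    rw [only_one hA hH h1.1 hx.1 h1.2.1.symm hx.2.1.symm]
  obtain ⟨c, hc1, hc2, hc3⟩ := greedy G D hD (H.verts ∪ {w | S w ∨ ∃ x, C w x}) c0 (by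
    have hHC : ∀ u ∈ H.verts, ∀ w, (S w ∨ ∃ x, C w x) → G.Adj u w → c0 u ≠ c0 w := by
      intro u hu w hw h
      rcases hw with hw | ⟨x, hx⟩
      · rw [hc0H u hu, hc0S w hw]
        exact hge0 u hu
      · have hux : u = x := only_one hA hH hu hx.1 h.symm hx.2.1.symm
        subst hux
        rw [hc0H u hu, hc0C w u hx]
        exact hgf u hu _ (mate_adj hH hu) (by simp)
    have hSS : ∀ x y, S x → S y → ¬ G.Adj x y := by
      intro x y h1 h2 h3
      by_cases hx : x ∈ A
      · exact hSind x y hx h1 h2 h3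
      · exact hSind y x (mem_side hA h3 hx) h2 h1 h3.symm
    have hSCn : ∀ x y, S x → (∃ t, C y t) → c0 x ≠ c0 y := by
      rintro x y hx ⟨t, ht⟩
      rw [hc0S x hx, hc0C y t ht]
      exact fun h => ht.2.2.2 h.symm
    intro u hu v hv h
    rcases hu with hu | hu
    · rcases hv with hv | hv
      · rw [hc0H u hu, hc0H v hv]
        exact hgg u hu v hv (adj_verts hH hu hv h)
      · exact hHC u hu v hv h
    · rcases hv with hv | hv
      · exact (hHC v hv u hu h.symm).symm
      · rcases hu with hu | hu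
        · rcases hv with hv | hv
          · exact absurd h (hSS u v hu hv)
          · exact hSCn u v hu hv
        · rcases hv with hv | hv
          · exact (hSCn v u hv hu).symm
          · obtain ⟨x, hx⟩ := hu
            obtain ⟨y, hy⟩ := hv
            rw [hc0C u x hx, hc0C v y hy]
            intro he
            have key : ∀ u v x y, C u x → C v y → G.Adj u v → fe x = fe y → x ∈ A → False := by
              intro u v x y hx hy h he hxA
              have huA : u ∉ A := (hA x u hx.2.1).1 hxA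
              have hvA : v ∈ A := mem_side hA h huA
              have hyA : y ∉ A := fun hh => (hA y v hy.2.1).1 hh hvA
              have hm := mate_adj hH hy.1
              have hmA : mate H y ∈ A := mem_side hA (H.adj_sub hm) hyA
              refine hconf x (mate H x) (mate H y) y u v (mate_adj hH hx.1) hxA hm.symm hmA ?_
                hx.2.2.2 hx.2.1 ?_ hy.2.1 ?_ h
              · rw [Sym2.eq_swap (a := mate H y)]
                exact he
              · rintro rfl
                exact hx.2.2.1 (H.edge_vert (mate_adj hH hx.1).symm)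
              · rintro rfl
                exact hy.2.2.1 (H.edge_vert hm.symm)
            by_cases hxA : x ∈ A
            · exact key u v x y hx hy h he hxA
            · have huA : u ∈ A := mem_side hA hx.2.1 hxA
              have hvA : v ∉ A := (hA u v h).1 huA
              have hyA : y ∈ A := by
                by_contra hh
                exact hh ((hA y v hy.2.1).2 hvA)
              exact key v u y x hy hx h.symm he.symm hyA)
    ((range (D + 2)).erase e0) (by
      rw [Finset.card_erase_of_mem (Finset.mem_range.2 he0), Finset.card_range]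
      omega)
  have hck : ∀ v, c v < D + 2 := by
    intro v
    by_cases hv : v ∈ H.verts ∪ {w | S w ∨ ∃ x, C w x}
    · rw [hc1 v hv]
      rcases hv with hv | hv | ⟨x, hx⟩
      · rw [hc0H v hv]
        exact hg v hv
      · rw [hc0S v hv]
        exact he0
      · rw [hc0C v x hx]
        exact hf _ (mate_adj hH hx.1)
    · exact Finset.mem_range.1 (Finset.mem_of_mem_erase (hc2 v hv))
  have hcH : ∀ v ∈ H.verts, c v = g v := fun v hv => (hc1 v (Or.inl hv)).trans (hc0H v hv)
  have hcS : ∀ v, S v → c v = e0 := fun v hv => (hc1 v (Or.inr (Or.inl hv))).trans (hc0S v hv)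
  have hcC : ∀ w x, C w x → c w = fe x :=
    fun w x hx => (hc1 w (Or.inr (Or.inr ⟨x, hx⟩))).trans (hc0C w x hx)
  have hce0 : ∀ v, ¬ S v → c v ≠ e0 := by
    intro v hvS
    by_cases hv : v ∈ H.verts ∪ {w | S w ∨ ∃ x, C w x}
    · rcases hv with hv | hv | ⟨x, hx⟩
      · rw [hcH v hv]
        exact hge0 v hv
      · exact absurd hv hvS
      · rw [hcC v x hx]
        exact hx.2.2.2
    · exact Finset.ne_of_mem_erase (hc2 v hv)
  -- the remaining edges
  let E2 : Finset (V × V) := (EE G H A).filter (fun e => e ∉ T)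
  have hE2 : ∀ e, e ∈ E2 ↔ e ∈ EE G H A ∧ e ∉ T := fun e => by
    simp only [E2, Finset.mem_filter]
  let L : V × V → Finset ℕ := fun e => range (D + 2) \
    ({e0, c e.1, c e.2} ∪ ((if e.1 ∈ H.verts then {fe e.1} else ∅) ∪
      (if e.2 ∈ H.verts then {fe e.2} else ∅)))
  have hdegA : ∀ x ∈ A, (E2.filter (fun e => e.1 = x)).card ≤ D ∧
      (¬ S x → (E2.filter (fun e => e.1 = x)).card ≤ D - 1) := by
    intro x hx
    have h0 := fst_card (G := G) x (E2.filter (fun e => e.1 = x)) (by
      intro e he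
      rw [Finset.mem_filter, hE2] at he
      exact ⟨he.2, (mem_EE.1 he.1.1).2.1⟩)
    refine ⟨h0.trans (hD x), fun hs => ?_⟩
    rcases (hD x).lt_or_eq with h | h
    · omega
    · obtain ⟨w, hw1, hw2⟩ : ∃ w, G.Adj x w ∧ (H.Adj x w ∨ (x, w) ∈ T) := by
        by_cases hq : Q x
        · exact ⟨mate H x, H.adj_sub (mate_adj hH hq.1), Or.inl (mate_adj hH hq.1)⟩
        · obtain ⟨e, he, rfl⟩ := hcovA x hx h hq hs
          exact ⟨e.2, (hTadj e he).2, Or.inr he⟩
      have h3 : (x, w) ∉ E2.filter (fun e => e.1 = x) := by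
        intro h4
        rw [Finset.mem_filter, hE2] at h4
        rcases hw2 with h5 | h5
        · exact (mem_EE.1 h4.1.1).2.2 h5
        · exact h4.1.2 h5
      have := fst_card (G := G) x (insert (x, w) (E2.filter (fun e => e.1 = x))) (by
        intro e he
        rw [Finset.mem_insert] at he
        rcases he with rfl | he
        · exact ⟨rfl, hw1⟩
        · rw [Finset.mem_filter, hE2] at he
          exact ⟨he.2, (mem_EE.1 he.1.1).2.1⟩)
      rw [Finset.card_insert_of_notMem h3] at this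
      omega
  have hdegB : ∀ x, x ∉ A → (E2.filter (fun e => e.2 = x)).card ≤ D ∧
      (¬ S x → (E2.filter (fun e => e.2 = x)).card ≤ D - 1) := by
    intro x hx
    have h0 := snd_card (G := G) x (E2.filter (fun e => e.2 = x)) (by
      intro e he
      rw [Finset.mem_filter, hE2] at he
      exact ⟨he.2, (mem_EE.1 he.1.1).2.1⟩)
    refine ⟨h0.trans (hD x), fun hs => ?_⟩
    rcases (hD x).lt_or_eq with h | h
    · omega
    · obtain ⟨w, hw1, hw2⟩ : ∃ w, G.Adj x w ∧ (H.Adj x w ∨ (w, x) ∈ T) := by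
        by_cases hq : Q x
        · exact ⟨mate H x, H.adj_sub (mate_adj hH hq.1), Or.inl (mate_adj hH hq.1)⟩
        · obtain ⟨e, he, rfl⟩ := hcovB x hx h hq hs
          exact ⟨e.1, (hTadj e he).2.symm, Or.inr he⟩
      have h3 : (w, x) ∉ E2.filter (fun e => e.2 = x) := by
        intro h4
        rw [Finset.mem_filter, hE2] at h4
        rcases hw2 with h5 | h5
        · exact (mem_EE.1 h4.1.1).2.2 h5.symm
        · exact h4.1.2 h5
      have := snd_card (G := G) x (insert (w, x) (E2.filter (fun e => e.2 = x))) (by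
        intro e he
        rw [Finset.mem_insert] at he
        rcases he with rfl | he
        · exact ⟨rfl, hw1.symm⟩
        · rw [Finset.mem_filter, hE2] at he
          exact ⟨he.2, (mem_EE.1 he.1.1).2.1⟩)
      rw [Finset.card_insert_of_notMem h3] at this
      omega
  have three : ∀ a b d : ℕ, ({a, b, d} : Finset ℕ).card ≤ 3 := fun a b d => Finset.card_le_three
  have two : ∀ a b : ℕ, ({a, b} : Finset ℕ).card ≤ 2 := fun a b => Finset.card_le_two
  have hkey : ∀ e ∈ E2, (D ≤ (L e).card ∨ (D - 1 ≤ (L e).card ∧ ¬ S e.1 ∧ ¬ S e.2)) := by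
    rintro ⟨x, y⟩ he
    have he1 := (hE2 _).1 he
    have he2 := mem_EE.1 he1.1
    simp only at he2
    have hyA : y ∉ A := (hA x y he2.2.1).1 he2.1
    have hcard : D + 2 ≤ (L (x, y)).card + (({e0, c x, c y} ∪
        ((if x ∈ H.verts then {fe x} else ∅) ∪
        (if y ∈ H.verts then {fe y} else ∅)) : Finset ℕ)).card := by
      have := Finset.le_card_sdiff ({e0, c x, c y} ∪ ((if x ∈ H.verts then {fe x} else ∅) ∪
        (if y ∈ H.verts then {fe y} else ∅)) : Finset ℕ) (range (D + 2))
      rw [Finset.card_range] at this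
      simp only [L]
      omega
    simp only
    by_cases hx : x ∈ H.verts
    · have hy : y ∉ H.verts := fun hy => he2.2.2 (adj_verts hH hx hy he2.2.1)
      have hSx : ¬ S x := fun h => hSH x h hx
      rw [if_pos hx, if_neg hy, Finset.union_empty] at hcard
      by_cases hSy : S y
      · -- `y` is coloured `e0`, hence `fe x = e0`
        have h1 : fe x = e0 := by
          obtain ⟨v, hv, h⟩ := hSQ y hSy
          have := only_one hA hH hv.1 hx h he2.2.1.symm
          rw [← this]
          exact hv.2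
        have h2 : ({e0, c x, c y} ∪ {fe x} : Finset ℕ).card ≤ 2 := by
          rw [h1, hcS y hSy]
          exact c1 _ _
        exact Or.inl (by omega)
      · have h2 : ({e0, c x, c y} ∪ {fe x} : Finset ℕ).card ≤ 3 := by
          by_cases hfx : fe x = e0
          · rw [hfx]
            exact c2 _ _ _
          · have h3 : c y = fe x := hcC y x ⟨hx, he2.2.1, hy, hfx⟩
            rw [h3]
            exact c3 _ _ _
        exact Or.inr ⟨by omega, hSx, hSy⟩
    · by_cases hy : y ∈ H.verts
      · have hSy : ¬ S y := fun h => hSH y h hy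
        rw [if_neg hx, if_pos hy, Finset.empty_union] at hcard
        by_cases hSx : S x
        · have h1 : fe y = e0 := by
            obtain ⟨v, hv, h⟩ := hSQ x hSx
            have := only_one hA hH hv.1 hy h he2.2.1
            rw [← this]
            exact hv.2
          have h2 : ({e0, c x, c y} ∪ {fe y} : Finset ℕ).card ≤ 2 := by
            rw [h1, hcS x hSx]
            exact c4 _ _
          exact Or.inl (by omega)
        · have h2 : ({e0, c x, c y} ∪ {fe y} : Finset ℕ).card ≤ 3 := by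
            by_cases hfy : fe y = e0
            · rw [hfy]
              exact c2 _ _ _
            · have h3 : c x = fe y := hcC x y ⟨hy, he2.2.1.symm, hx, hfy⟩
              rw [h3]
              exact c5 _ _ _
          exact Or.inr ⟨by omega, hSx, hSy⟩
      · rw [if_neg hx, if_neg hy, Finset.union_empty, Finset.union_empty] at hcard
        by_cases hSx : S x
        · have h2 : ({e0, c x, c y} : Finset ℕ).card ≤ 2 := by
            rw [hcS x hSx]
            exact c6 _ _
          exact Or.inl (by omega)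
        · by_cases hSy : S y
          · have h2 : ({e0, c x, c y} : Finset ℕ).card ≤ 2 := by
              rw [hcS y hSy]
              exact c7 _ _
            exact Or.inl (by omega)
          · have h2 := three e0 (c x) (c y)
            exact Or.inr ⟨by omega, hSx, hSy⟩
  obtain ⟨φ, hφ⟩ := bkw' E2 L (by
    intro e he R hR
    have he2 := mem_EE.1 ((hE2 _).1 he).1
    have d := hdegA e.1 he2.1
    have hle : R.card ≤ (E2.filter (fun f => f.1 = e.1)).card :=
      Finset.card_le_card fun f hf => Finset.mem_filter.2 (hR f hf)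
    rcases hkey e he with h | ⟨h, h3, _⟩
    · exact (hle.trans d.1).trans h
    · exact (hle.trans (d.2 h3)).trans h) (by
    intro e he R hR
    have he2 := mem_EE.1 ((hE2 _).1 he).1
    have d := hdegB e.2 ((hA _ _ he2.2.1).1 he2.1)
    have hle : R.card ≤ (E2.filter (fun f => f.2 = e.2)).card :=
      Finset.card_le_card fun f hf => Finset.mem_filter.2 (hR f hf)
    rcases hkey e he with h | ⟨h, _, h3⟩
    · exact (hle.trans d.1).trans h
    · exact (hle.trans (d.2 h3)).trans h)
  let Φ : V × V → ℕ := fun e => if e ∈ T then e0 else φ e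
  have hΦT : ∀ e, e ∈ T → Φ e = e0 := fun e h => by simp only [Φ]; rw [if_pos h]
  have hΦφ : ∀ e, e ∉ T → Φ e = φ e := fun e h => by simp only [Φ]; rw [if_neg h]
  have hφL : ∀ e, e ∈ EE G H A → e ∉ T → φ e < D + 2 ∧ φ e ≠ e0 ∧ φ e ≠ c e.1 ∧ φ e ≠ c e.2 ∧
      (e.1 ∈ H.verts → φ e ≠ fe e.1) ∧ (e.2 ∈ H.verts → φ e ≠ fe e.2) := by
    intro e h1 h2
    have h3 := (hφ e ((hE2 e).2 ⟨h1, h2⟩)).1
    simp only [L, Finset.mem_sdiff, Finset.mem_range, Finset.mem_union, Finset.mem_insert,
      Finset.mem_singleton, not_or] at h3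
    refine ⟨h3.1, h3.2.1.1, h3.2.1.2.1, h3.2.1.2.2, fun h => ?_, fun h => ?_⟩
    · have h4 := h3.2.2.1
      rw [if_pos h, Finset.mem_singleton] at h4
      exact h4
    · have h4 := h3.2.2.2
      rw [if_pos h, Finset.mem_singleton] at h4
      exact h4
  have hmem : ∀ x y, x ∈ A → G.Adj x y → ¬ H.Adj x y → (x, y) ∈ EE G H A :=
    fun x y h1 h2 h3 => mem_EE.2 ⟨h1, h2, h3⟩
  apply assemble hA hcol c hck hcH hc3 Φ
  · intro x y hx hxy hn
    have he := hmem x y hx hxy hn
    by_cases ht : (x, y) ∈ T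
    · rw [hΦT _ ht]
      refine ⟨he0, (hce0 x (hTS1 _ ht)).symm, (hce0 y (hTS2 _ ht)).symm, ?_, ?_⟩
      · intro v hv h
        apply (hTQ _ ht).1
        refine ⟨H.edge_vert hv, ?_⟩
        simp only [fe]
        rw [mate_eq hH hv]
        exact h.symm
      · intro u hu h
        apply (hTQ _ ht).2
        refine ⟨H.edge_vert hu, ?_⟩
        simp only [fe]
        rw [mate_eq hH hu]
        exact h.symm
    · rw [hΦφ _ ht]
      obtain ⟨b1, b2, b3, b4, b5, b6⟩ := hφL _ he ht
      refine ⟨b1, b3, b4, ?_, ?_⟩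
      · intro v hv
        have := b5 (H.edge_vert hv)
        simp only [fe, mate_eq hH hv] at this
        exact this
      · intro u hu
        have := b6 (H.edge_vert hu)
        simp only [fe, mate_eq hH hu] at this
        exact this
  · intro x y y' hx h1 h2 h3 h4 hyy
    have e1 := hmem x y hx h1 h2
    have e2 := hmem x y' hx h3 h4
    by_cases a1 : (x, y) ∈ T
    · by_cases a2 : (x, y') ∈ T
      · exact absurd (Prod.ext_iff.1 (hTm _ a1 _ a2 (Or.inl rfl))).2 hyy
      · rw [hΦT _ a1, hΦφ _ a2]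
        exact (hφL _ e2 a2).2.1.symm
    · by_cases a2 : (x, y') ∈ T
      · rw [hΦφ _ a1, hΦT _ a2]
        exact (hφL _ e1 a1).2.1
      · rw [hΦφ _ a1, hΦφ _ a2]
        exact ((hφ _ ((hE2 _).2 ⟨e1, a1⟩)).2 _ ((hE2 _).2 ⟨e2, a2⟩)
          (fun h => hyy (Prod.ext_iff.1 h).2.symm) (Or.inl rfl)).symm
  · intro x x' y hx hx' h1 h2 h3 h4 hxx
    have e1 := hmem x y hx h1 h2
    have e2 := hmem x' y hx' h3 h4
    by_cases a1 : (x, y) ∈ T
    · by_cases a2 : (x', y) ∈ T
      · exact absurd (Prod.ext_iff.1 (hTm _ a1 _ a2 (Or.inr rfl))).1 hxx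
      · rw [hΦT _ a1, hΦφ _ a2]
        exact (hφL _ e2 a2).2.1.symm
    · by_cases a2 : (x', y) ∈ T
      · rw [hΦφ _ a1, hΦT _ a2]
        exact (hφL _ e1 a1).2.1
      · rw [hΦφ _ a1, hΦφ _ a2]
        exact ((hφ _ ((hE2 _).2 ⟨e1, a1⟩)).2 _ ((hE2 _).2 ⟨e2, a2⟩)
          (fun h => hxx (Prod.ext_iff.1 h).1.symm) (Or.inr rfl)).symm

end Pool.Agent.Q177.TC
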