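import Pool.Agent.Q177.TC.Psi

/-!
# Consequences: matchings inside a matching, and one colour on one side
-/

set_option autoImplicit false

namespace Pool.Agent.Q177.TC

open Pool.Agent.Q241.DM Finset

theorem nb_card {V : Type} [Fintype V] (G : SimpleGraph V) (v : V) (S : Finset V)
    (h : ∀ w ∈ S, G.Adj v w) : S.card ≤ (G.neighborSet v).ncard := by
  rw [← Set.ncard_coe_finset]
  exact Set.ncard_le_ncard (fun w hw => h w hw) (Set.toFinite _)

theorem mem_side {V : Type} {G : SimpleGraph V} {A : Set V} (hA : Side G A) {u v : V}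
    (h : G.Adj u v) (hu : u ∉ A) : v ∈ A := by
  by_contra hh
  exact hu ((hA u v h).2 hh)

/-- König's theorem on unordered pairs, with a prescribed colour class. -/
theorem konigM {V : Type} [Fintype V] {G : SimpleGraph V} {A : Set V} (hA : Side G A) (D : ℕ)
    (hD : ∀ v, (G.neighborSet v).ncard ≤ D) (M : G.Subgraph) (hM : M.IsMatching)
    (hMD : ∀ v, (G.neighborSet v).ncard = D → v ∈ M.verts) :
    ∃ ψ : Sym2 V → ℕ, (∀ e ∈ G.edgeSet, ψ e < D) ∧
      (∀ v a b, G.Adj v a → G.Adj v b → a ≠ b → ψ s(v, a) ≠ ψ s(v, b)) ∧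
      ∀ e ∈ M.edgeSet, ψ e = 0 := by
  classical
  rcases Nat.eq_zero_or_pos D with rfl | hpos
  · have hno : ∀ a b, ¬ G.Adj a b := by
      intro a b h
      have h1 := hD a
      have h2 : (G.neighborSet a).ncard = 0 := by omega
      rw [Set.ncard_eq_zero (Set.toFinite _)] at h2
      have : b ∈ G.neighborSet a := h
      rw [h2] at this
      exact this
    refine ⟨fun _ => 0, ?_, fun v a b h => absurd h (hno v a), fun _ _ => rfl⟩
    intro e he
    induction e using Sym2.ind with
    | _ x y => exact absurd he (hno x y)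
  · set E : Finset (V × V) := EE G M A with hE
    have hdeg : ∀ v, ∀ S : Finset V, (∀ w ∈ S, G.Adj v w ∧ ¬ M.Adj v w) → S.card ≤ D - 1 := by
      intro v S hS
      rcases (hD v).lt_or_eq with h | h
      · have := nb_card G v S (fun w hw => (hS w hw).1)
        omega
      · obtain ⟨w, hw, _⟩ := hM (hMD v h)
        have h1 := nb_card G v (insert w S) (by
          intro w' hw'
          rw [Finset.mem_insert] at hw'
          rcases hw' with rfl | hw'
          · exact M.adj_sub hw
          · exact (hS w' hw').1)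
        rw [Finset.card_insert_of_notMem (fun h => (hS w h).2 hw)] at h1
        omega
    obtain ⟨c, hc1, hc2⟩ := Pool.Agent.TH559.LE.K1 E (D - 1) (by
      intro u
      have h1 : (E.filter (fun e => e.1 = u)).card ≤ ((E.filter (fun e => e.1 = u)).image
          Prod.snd).card := by
        rw [Finset.card_image_of_injOn]
        intro a ha b hb hab
        rw [Finset.mem_coe, Finset.mem_filter] at ha hb
        exact Prod.ext (ha.2.trans hb.2.symm) hab
      refine h1.trans (hdeg u _ ?_)
      intro w hw
      rw [Finset.mem_image] at hw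
      obtain ⟨e, he, rfl⟩ := hw
      rw [Finset.mem_filter, hE, mem_EE] at he
      rw [← he.2]
      exact he.1.2) (by
      intro u
      have h1 : (E.filter (fun e => e.2 = u)).card ≤ ((E.filter (fun e => e.2 = u)).image
          Prod.fst).card := by
        rw [Finset.card_image_of_injOn]
        intro a ha b hb hab
        rw [Finset.mem_coe, Finset.mem_filter] at ha hb
        exact Prod.ext hab (ha.2.trans hb.2.symm)
      refine h1.trans (hdeg u _ ?_)
      intro w hw
      rw [Finset.mem_image] at hw
      obtain ⟨e, he, rfl⟩ := hw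
      rw [Finset.mem_filter, hE, mem_EE] at he
      rw [← he.2]
      exact ⟨he.1.2.1.symm, fun h => he.1.2.2 h.symm⟩)
    set c' : V × V → ℕ := fun e => if M.Adj e.1 e.2 then 0 else c e + 1 with hc'
    have e1 : ∀ x y, x ∈ A → G.Adj x y → und A c' s(x, y) = c' (x, y) := fun x y hx h =>
      und_l c' hx ((hA x y h).1 hx)
    have e2 : ∀ x y, x ∉ A → G.Adj x y → und A c' s(x, y) = c' (y, x) := fun x y hx h =>
      und_r c' (mem_side hA h hx) hx
    have hpl : ∀ x y, x ∈ A → G.Adj x y → c' (x, y) < D := by
      intro x y hx h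
      simp only [hc']
      split_ifs with hm
      · exact hpos
      · have := hc1 (x, y) (mem_EE.2 ⟨hx, h, hm⟩)
        omega
    refine ⟨und A c', ?_, ?_, ?_⟩
    · intro e he
      induction e using Sym2.ind with
      | _ x y =>
        have h : G.Adj x y := he
        by_cases hx : x ∈ A
        · rw [e1 x y hx h]
          exact hpl x y hx h
        · rw [e2 x y hx h]
          exact hpl y x (mem_side hA h hx) h.symm
    · intro v a b ha hb hab
      have hMu : ¬ (M.Adj v a ∧ M.Adj v b) := by
        rintro ⟨h1, h2⟩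
        obtain ⟨w, _, hw⟩ := hM (M.edge_vert h1)
        exact hab ((hw a h1).trans (hw b h2).symm)
      by_cases hv : v ∈ A
      · rw [e1 v a hv ha, e1 v b hv hb]
        simp only [hc']
        by_cases h1 : M.Adj v a
        · have h2 : ¬ M.Adj v b := fun h => hMu ⟨h1, h⟩
          rw [if_pos h1, if_neg h2]
          omega
        · by_cases h2 : M.Adj v b
          · rw [if_neg h1, if_pos h2]
            omega
          · rw [if_neg h1, if_neg h2]
            have := hc2 (v, a) (mem_EE.2 ⟨hv, ha, h1⟩) (v, b) (mem_EE.2 ⟨hv, hb, h2⟩)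
              (fun h => hab (Prod.ext_iff.1 h).2) (Or.inl rfl)
            omega
      · rw [e2 v a hv ha, e2 v b hv hb]
        simp only [hc']
        have haA := mem_side hA ha hv
        have hbA := mem_side hA hb hv
        by_cases h1 : M.Adj v a
        · have h2 : ¬ M.Adj v b := fun h => hMu ⟨h1, h⟩
          rw [if_pos h1.symm, if_neg (fun h => h2 h.symm)]
          omega
        · by_cases h2 : M.Adj v b
          · rw [if_neg (fun h => h1 h.symm), if_pos h2.symm]
            omega
          · rw [if_neg (fun h => h1 h.symm), if_neg (fun h => h2 h.symm)]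
            have := hc2 (a, v) (mem_EE.2 ⟨haA, ha.symm, fun h => h1 h.symm⟩) (b, v)
              (mem_EE.2 ⟨hbA, hb.symm, fun h => h2 h.symm⟩)
              (fun h => hab (Prod.ext_iff.1 h).1) (Or.inr rfl)
            omega
    · intro e he
      induction e using Sym2.ind with
      | _ x y =>
        have h : M.Adj x y := he
        by_cases hx : x ∈ A
        · rw [e1 x y hx (M.adj_sub h)]
          simp only [hc']
          rw [if_pos h]
        · rw [e2 x y hx (M.adj_sub h)]
          simp only [hc']
          rw [if_pos h.symm]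

/-- König's theorem on unordered pairs. -/
theorem konig0 {V : Type} [Fintype V] {G : SimpleGraph V} {A : Set V} (hA : Side G A) (D : ℕ)
    (hD : ∀ v, (G.neighborSet v).ncard ≤ D) :
    ∃ ψ : Sym2 V → ℕ, (∀ e ∈ G.edgeSet, ψ e < D) ∧
      (∀ v a b, G.Adj v a → G.Adj v b → a ≠ b → ψ s(v, a) ≠ ψ s(v, b)) := by
  obtain ⟨ψ, h1, h2, _⟩ := konigM hA (D + 1) (fun v => (hD v).trans (Nat.le_succ D)) ⊥ (by
    intro v hv
    exact absurd hv (by simp)) (by
    intro v hv
    have := hD v
    omega)
  classical
  -- use the theorem directly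
  obtain ⟨c, hc1, hc2⟩ := Pool.Agent.TH559.LE.K1 (EE G (⊥ : G.Subgraph) A) D (by
      intro u
      have h1 : ((EE G (⊥ : G.Subgraph) A).filter (fun e => e.1 = u)).card ≤
          (((EE G (⊥ : G.Subgraph) A).filter (fun e => e.1 = u)).image Prod.snd).card := by
        rw [Finset.card_image_of_injOn]
        intro a ha b hb hab
        rw [Finset.mem_coe, Finset.mem_filter] at ha hb
        exact Prod.ext (ha.2.trans hb.2.symm) hab
      refine h1.trans ((nb_card G u _ ?_).trans (hD u))
      intro w hw
      rw [Finset.mem_image] at hw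
      obtain ⟨e, he, rfl⟩ := hw
      rw [Finset.mem_filter, mem_EE] at he
      rw [← he.2]
      exact he.1.2.1) (by
      intro u
      have h1 : ((EE G (⊥ : G.Subgraph) A).filter (fun e => e.2 = u)).card ≤
          (((EE G (⊥ : G.Subgraph) A).filter (fun e => e.2 = u)).image Prod.fst).card := by
        rw [Finset.card_image_of_injOn]
        intro a ha b hb hab
        rw [Finset.mem_coe, Finset.mem_filter] at ha hb
        exact Prod.ext hab (ha.2.trans hb.2.symm)
      refine h1.trans ((nb_card G u _ ?_).trans (hD u))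
      intro w hw
      rw [Finset.mem_image] at hw
      obtain ⟨e, he, rfl⟩ := hw
      rw [Finset.mem_filter, mem_EE] at he
      rw [← he.2]
      exact he.1.2.1.symm)
  have hm : ∀ x y, x ∈ A → G.Adj x y → (x, y) ∈ EE G (⊥ : G.Subgraph) A :=
    fun x y hx h => mem_EE.2 ⟨hx, h, by simp⟩
  have e1 : ∀ x y, x ∈ A → G.Adj x y → und A c s(x, y) = c (x, y) := fun x y hx h =>
    und_l c hx ((hA x y h).1 hx)
  have e2 : ∀ x y, x ∉ A → G.Adj x y → und A c s(x, y) = c (y, x) := fun x y hx h =>
    und_r c (mem_side hA h hx) hx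
  refine ⟨und A c, ?_, ?_⟩
  · intro e he
    induction e using Sym2.ind with
    | _ x y =>
      have h : G.Adj x y := he
      by_cases hx : x ∈ A
      · rw [e1 x y hx h]
        exact hc1 _ (hm x y hx h)
      · rw [e2 x y hx h]
        exact hc1 _ (hm y x (mem_side hA h hx) h.symm)
  · intro v a b ha hb hab
    by_cases hv : v ∈ A
    · rw [e1 v a hv ha, e1 v b hv hb]
      exact hc2 _ (hm v a hv ha) _ (hm v b hv hb) (fun h => hab (Prod.ext_iff.1 h).2) (Or.inl rfl)
    · rw [e2 v a hv ha, e2 v b hv hb]
      exact hc2 _ (hm a v (mem_side hA ha hv) ha.symm) _ (hm b v (mem_side hA hb hv) hb.symm)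
        (fun h => hab (Prod.ext_iff.1 h).1) (Or.inr rfl)

/-- A distance-3 matching inside a matching which covers the vertices of maximum degree. -/
theorem inside {V : Type} [Fintype V] {G : SimpleGraph V} {H : G.Subgraph} {A : Set V}
    (hA : Side G A) (D : ℕ) (hD : ∀ v, (G.neighborSet v).ncard ≤ D)
    (hH : DistanceThreeMatching G H) (M : G.Subgraph) (hM : M.IsMatching)
    (hMD : ∀ v, (G.neighborSet v).ncard = D → v ∈ M.verts) (hHM : H ≤ M) :
    AllExtend G H (D + 2) := by
  intro g f hcol
  obtain ⟨ψ, h1, h2, h3⟩ := konigM hA D hD M hM hMD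
  refine crit hA D hD hH ψ h1 h2 g f hcol ?_
  intro u v u' v' w z _ _ h4 _ _ _ _ _ h5
  have h6 : ψ s(u', v') = 0 := h3 _ (hHM.2 h4)
  omega

/-- No two equally coloured edges of `H` with joined neighbourhoods. -/
theorem free {V : Type} [Fintype V] {G : SimpleGraph V} {H : G.Subgraph} {A : Set V}
    (hA : Side G A) (D : ℕ) (hD : ∀ v, (G.neighborSet v).ncard ≤ D)
    (hH : DistanceThreeMatching G H)
    (g : V → ℕ) (f : Sym2 V → ℕ) (hcol : TotalColouring H.verts H.edgeSet (D + 2) g f)
    (hconf : ∀ u v u' v' w z, H.Adj u v → u ∈ A → H.Adj u' v' → u' ∈ A →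
      f s(u, v) = f s(u', v') → G.Adj u w → w ≠ v → G.Adj v' z → z ≠ u' → ¬ G.Adj w z) :
    Extends G H (D + 2) g f := by
  obtain ⟨ψ, h1, h2⟩ := konig0 hA D hD
  refine crit hA D hD hH ψ h1 h2 g f hcol ?_
  intro u v u' v' w z a1 a2 a3 a4 a5 a6 a7 a8 a9
  refine hconf u v u' v' w z a1 a2 a3 a4 a5 a6 ?_ a7 ?_
  · rintro rfl
    omega
  · rintro rfl
    rw [Sym2.eq_swap] at a9
    omega

/-- All the vertices of `H` in `A` have the same colour. -/
theorem mono {V : Type} [Fintype V] {G : SimpleGraph V} {H : G.Subgraph} {A : Set V}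
    (hA : Side G A) (D : ℕ) (hD : ∀ v, (G.neighborSet v).ncard ≤ D)
    (hH : DistanceThreeMatching G H)
    (g : V → ℕ) (f : Sym2 V → ℕ) (hcol : TotalColouring H.verts H.edgeSet (D + 2) g f)
    (hmono : ∀ u ∈ H.verts, ∀ u' ∈ H.verts, u ∈ A → u' ∈ A → g u = g u') :
    Extends G H (D + 2) g f := by
  classical
  obtain ⟨hg, hf, hgg, hff, hgf⟩ := id hcol
  obtain ⟨ψ, hψ, hψ'⟩ := konig0 hA D hD
  obtain ⟨α, hα, hgα⟩ : ∃ α, α < D + 2 ∧ ∀ u ∈ H.verts, u ∈ A → g u = α := by
    by_cases h : ∃ u ∈ H.verts, u ∈ A
    · obtain ⟨u, hu, huA⟩ := h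
      exact ⟨g u, hg u hu, fun u' hu' hA' => hmono u' hu' u hu hA' huA⟩
    · exact ⟨0, by omega, fun u hu hA' => absurd ⟨u, hu, hA'⟩ h⟩
  let fe : V → ℕ := fun x => f s(x, mate H x)
  let L : V × V → Finset ℕ := fun e => range (D + 2) \
    ({α} ∪ ((if e.1 ∈ H.verts then {fe e.1} else ∅) ∪
      (if e.2 ∈ H.verts then {g e.2, fe e.2} else ∅)))
  let q : V × V → ℕ := fun e => ψ s(e.1, e.2)
  let p : V × V → ℕ := fun e => if e.2 ∈ H.verts then D else q e
  have hq1 : ∀ e ∈ EE G H A, ∀ e' ∈ EE G H A, e.1 = e'.1 → q e = q e' → e = e' := by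
    rintro ⟨x, y⟩ he ⟨x', y'⟩ he' h1 h2
    simp only at h1
    subst h1
    rw [mem_EE] at he he'
    by_contra hne
    exact hψ' x y y' he.2.1 he'.2.1 (fun h => hne (by rw [h])) h2
  have hq2 : ∀ e ∈ EE G H A, ∀ e' ∈ EE G H A, e.2 = e'.2 → q e = q e' → e = e' := by
    rintro ⟨x, y⟩ he ⟨x', y'⟩ he' h1 h2
    simp only at h1
    subst h1
    rw [mem_EE] at he he'
    by_contra hne
    refine hψ' y x x' he.2.1.symm he'.2.1.symm (fun h => hne (by rw [h])) ?_
    simp only [q] at h2
    rw [Sym2.eq_swap, h2, Sym2.eq_swap]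
  have hqD : ∀ e ∈ EE G H A, q e < D := fun e he => hψ _ (mem_EE.1 he).2.1
  have hp1 : ∀ e ∈ EE G H A, ∀ e' ∈ EE G H A, e.1 = e'.1 → p e = p e' → e = e' := by
    intro e he e' he' h1 h2
    simp only [p] at h2
    have h3 := hqD e he
    have h4 := hqD e' he'
    split_ifs at h2 with h5 h6 h6
    · refine Prod.ext h1 (only_one hA hH h5 h6 (mem_EE.1 he).2.1 ?_)
      rw [h1]
      exact (mem_EE.1 he').2.1
    · omega
    · omega
    · exact hq1 e he e' he' h1 h2
  obtain ⟨φ, hφ⟩ := lists (EE G H A) L p q hp1 hq2
    (fun e => if e.1 ∈ H.verts then D - (p e + 1) else D - p e)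
    (fun e => if e.2 ∈ H.verts then D - 1 - 1 else q e)
    (by
      intro e he S hS
      have hin : ∀ e' ∈ S, ∀ e'' ∈ S, p e' = p e'' → e' = e'' := by
        intro e' he' e'' he'' h
        exact hp1 e' (hS e' he').1 e'' (hS e'' he'').1
          ((hS e' he').2.1.trans (hS e'' he'').2.1.symm) h
      split_ifs with hc
      · have h1 := card_le_inj S p (Finset.Ico (p e + 1) D) (by
          intro e' he'
          rw [Finset.mem_Ico]
          refine ⟨(hS e' he').2.2, ?_⟩
          have h2 := mem_EE.1 (hS e' he').1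
          have h3 : e'.2 ∉ H.verts := by
            intro h
            apply h2.2.2
            refine adj_verts hH ?_ h h2.2.1
            rw [(hS e' he').2.1]
            exact hc
          simp only [p]
          rw [if_neg h3]
          exact hqD e' (hS e' he').1) hin
        rwa [Nat.card_Ico] at h1
      · have h1 := card_le_inj S p (Finset.Ico (p e + 1) (D + 1)) (by
          intro e' he'
          rw [Finset.mem_Ico]
          refine ⟨(hS e' he').2.2, ?_⟩
          have h2 := hqD e' (hS e' he').1
          simp only [p]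
          split_ifs
          · omega
          · omega) hin
        rw [Nat.card_Ico] at h1
        omega)
    (by
      intro e he S hS
      have hin : ∀ e' ∈ S, ∀ e'' ∈ S, q e' = q e'' → e' = e'' := by
        intro e' he' e'' he'' h
        exact hq2 e' (hS e' he').1 e'' (hS e'' he'').1
          ((hS e' he').2.1.trans (hS e'' he'').2.1.symm) h
      split_ifs with hc
      · have hne : ∀ e' ∈ EE G H A, e'.2 = e.2 → q e' ≠ ψ s(e.2, mate H e.2) := by
          intro e' he' h3
          have h2 := mem_EE.1 he'
          simp only [q]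
          rw [h3] at h2 ⊢
          rw [Sym2.eq_swap]
          refine hψ' e.2 _ _ h2.2.1.symm (H.adj_sub (mate_adj hH hc)) ?_
          intro h4
          rw [h4] at h2
          exact h2.2.2 (mate_adj hH hc).symm
        have h1 := card_le_inj S q (((Finset.range D).erase (ψ s(e.2, mate H e.2))).erase (q e)) (by
          intro e' he'
          rw [Finset.mem_erase, Finset.mem_erase, Finset.mem_range]
          exact ⟨(hS e' he').2.2.ne, hne e' (hS e' he').1 (hS e' he').2.1,
            hqD e' (hS e' he').1⟩) hin
        rw [Finset.card_erase_of_mem, Finset.card_erase_of_mem, Finset.card_range] at h1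
        · exact h1
        · rw [Finset.mem_range]
          exact hψ _ (H.adj_sub (mate_adj hH hc))
        · rw [Finset.mem_erase, Finset.mem_range]
          exact ⟨hne e he rfl, hqD e he⟩
      · have h1 := card_le_inj S q (Finset.range (q e)) (by
          intro e' he'
          rw [Finset.mem_range]
          exact (hS e' he').2.2) hin
        rwa [Finset.card_range] at h1)
    (by
      rintro ⟨x, y⟩ he
      have he1 := mem_EE.1 he
      simp only at he1
      have hpD : q (x, y) < D := hqD _ he
      have hcard : D + 2 ≤ (L (x, y)).card + (({α} ∪ ((if x ∈ H.verts then {fe x} else ∅) ∪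
          (if y ∈ H.verts then {g y, fe y} else ∅)) : Finset ℕ)).card := by
        have := Finset.le_card_sdiff ({α} ∪ ((if x ∈ H.verts then {fe x} else ∅) ∪
          (if y ∈ H.verts then {g y, fe y} else ∅)) : Finset ℕ) (range (D + 2))
        rw [Finset.card_range] at this
        simp only [L]
        omega
      by_cases hx : x ∈ H.verts
      · have hy : y ∉ H.verts := fun hy => he1.2.2 (adj_verts hH hx hy he1.2.1)
        simp only [hx, hy, if_true, if_false, Finset.union_empty, p] at hcard ⊢
        have h3 : ({α} ∪ {fe x} : Finset ℕ).card ≤ 2 := by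
          refine (Finset.card_union_le _ _).trans ?_
          simp
        omega
      · by_cases hy : y ∈ H.verts
        · simp only [hx, hy, if_true, if_false, Finset.empty_union, p] at hcard ⊢
          have h3 : ({α} ∪ {g y, fe y} : Finset ℕ).card ≤ 3 := by
            refine (Finset.card_union_le _ _).trans ?_
            have := Finset.card_le_two (a := g y) (b := fe y)
            simp only [Finset.card_singleton]
            omega
          have h4 : ψ s(y, mate H y) < D := hψ _ (H.adj_sub (mate_adj hH hy))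
          have h5 : ψ s(y, mate H y) ≠ q (x, y) := by
            simp only [q]
            rw [Sym2.eq_swap (a := x)]
            refine hψ' y _ _ (H.adj_sub (mate_adj hH hy)) he1.2.1.symm ?_
            intro h
            apply he1.2.2
            have h9 := mate_adj hH hy
            rw [h] at h9
            exact h9.symm
          omega
        · simp only [hx, hy, if_false, Finset.union_empty, p, Finset.card_singleton] at hcard ⊢
          omega)
  have hmem : ∀ x y, x ∈ A → G.Adj x y → ¬ H.Adj x y → (x, y) ∈ EE G H A :=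
    fun x y h1 h2 h3 => mem_EE.2 ⟨h1, h2, h3⟩
  -- the colours of the vertices of the other class
  have hfree : ∀ y, ∃ s, s < D + 2 ∧ s ≠ α ∧ ∀ x, G.Adj y x → φ (x, y) ≠ s := by
    intro y
    obtain ⟨s, hs, hs'⟩ : ∃ s ∈ range (D + 2),
        s ∉ insert α ((univ.filter (fun x => G.Adj y x)).image (fun x => φ (x, y))) := by
      apply Finset.exists_mem_notMem_of_card_lt_card
      rw [Finset.card_range]
      have h1 := Finset.card_insert_le α
        ((univ.filter (fun x => G.Adj y x)).image (fun x => φ (x, y)))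
      have h2 := Finset.card_image_le (s := univ.filter (fun x => G.Adj y x))
        (f := fun x => φ (x, y))
      have h3 := nb_card G y (univ.filter (fun x => G.Adj y x)) (by simp)
      have h4 := hD y
      omega
    rw [Finset.mem_insert, not_or] at hs'
    refine ⟨s, Finset.mem_range.1 hs, hs'.1, fun x hx h => hs'.2 ?_⟩
    rw [← h]
    exact Finset.mem_image_of_mem (fun x => φ (x, y)) (by simp [hx])
  choose t ht1 ht2 ht3 using hfree
  let c : V → ℕ := fun v => if v ∈ A then α else if v ∈ H.verts then g v else t v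
  have hcA : ∀ v ∈ A, c v = α := fun v hv => by simp only [c]; rw [if_pos hv]
  have hcB : ∀ v, v ∉ A → v ∈ H.verts → c v = g v := fun v hv h => by
    simp only [c]; rw [if_neg hv, if_pos h]
  have hcT : ∀ v, v ∉ A → v ∉ H.verts → c v = t v := fun v hv h => by
    simp only [c]; rw [if_neg hv, if_neg h]
  have hne : ∀ v, v ∉ A → (∃ u, G.Adj u v) → c v ≠ α := by
    intro v hv _
    by_cases hvH : v ∈ H.verts
    · rw [hcB v hv hvH]
      have h1 := mate_adj hH hvH
      have h2 := mem_side hA (H.adj_sub h1) hv
      rw [← hgα _ (H.edge_vert h1.symm) h2]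
      exact hgg v hvH _ (H.edge_vert h1.symm) h1
    · rw [hcT v hv hvH]
      exact ht2 v
  apply assemble hA hcol c (k := D + 2) ?_ ?_ ?_ φ
  · intro x y hx hxy hn
    have h1 := (hφ _ (hmem x y hx hxy hn)).1
    simp only [L, Finset.mem_sdiff, Finset.mem_range, Finset.mem_union,
      Finset.mem_singleton, not_or] at h1
    have hyA : y ∉ A := (hA x y hxy).1 hx
    refine ⟨h1.1, ?_, ?_, ?_, ?_⟩
    · rw [hcA x hx]
      exact h1.2.1
    · by_cases hy : y ∈ H.verts
      · rw [hcB y hyA hy]
        have h2 := h1.2.2.2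
        rw [if_pos hy, Finset.mem_insert, not_or] at h2
        exact h2.1
      · rw [hcT y hyA hy]
        exact ht3 y x hxy.symm
    · intro v hv
      have h2 := h1.2.2.1
      rw [if_pos (H.edge_vert hv), Finset.mem_singleton] at h2
      simp only [fe, mate_eq hH hv] at h2
      exact h2
    · intro u hu
      have h2 := h1.2.2.2
      rw [if_pos (H.edge_vert hu), Finset.mem_insert, not_or, Finset.mem_singleton] at h2
      simp only [fe, mate_eq hH hu] at h2
      exact h2.2
  · intro x y y' hx h1 h2 h3 h4 hne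
    exact ((hφ _ (hmem x y hx h1 h2)).2 _ (hmem x y' hx h3 h4)
      (fun h => hne (Prod.ext_iff.1 h).2.symm) (Or.inl rfl)).symm
  · intro x x' y hx hx' h1 h2 h3 h4 hne
    exact ((hφ _ (hmem x y hx h1 h2)).2 _ (hmem x' y hx' h3 h4)
      (fun h => hne (Prod.ext_iff.1 h).1.symm) (Or.inr rfl)).symm
  · intro v
    by_cases hv : v ∈ A
    · rw [hcA v hv]
      exact hα
    · by_cases hvH : v ∈ H.verts
      · rw [hcB v hv hvH]
        exact hg v hvH
      · rw [hcT v hv hvH]
        exact ht1 v
  · intro v hvH
    by_cases hv : v ∈ A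
    · rw [hcA v hv]
      exact (hgα v hvH hv).symm
    · exact hcB v hv hvH
  · intro u v h
    by_cases hu : u ∈ A
    · have hv := (hA u v h).1 hu
      rw [hcA u hu]
      exact (hne v hv ⟨u, h⟩).symm
    · have hv := mem_side hA h hu
      rw [hcA v hv]
      exact hne u hu ⟨v, h.symm⟩

end Pool.Agent.Q177.TC
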