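import Pool.Agent.Q241.DM.Defs
import Pool.Agent.TH559.LE.Bkw

/-!
# Extending total colourings of distance-3 matchings in bipartite graphs: tools
-/

set_option autoImplicit false

namespace Pool.Agent.Q177.TC

open Pool.Agent.Q241.DM Finset

/-- `A` is one class of a bipartition of `G`. -/
def Side {V : Type} (G : SimpleGraph V) (A : Set V) : Prop :=
  ∀ u v, G.Adj u v → (u ∈ A ↔ v ∉ A)

/-- The given total colouring of the subgraph extends to a total colouring with `k` colours. -/
def Extends {V : Type} (G : SimpleGraph V) (H : G.Subgraph) (k : ℕ) (g : V → ℕ)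
    (f : Sym2 V → ℕ) : Prop :=
  ∃ (g' : V → ℕ) (f' : Sym2 V → ℕ), TotalColouring Set.univ G.edgeSet k g' f' ∧
    (∀ v ∈ H.verts, g' v = g v) ∧ ∀ e ∈ H.edgeSet, f' e = f e

open Classical in
/-- The function on unordered pairs given by a function on ordered pairs. -/
noncomputable def und {V : Type} (A : Set V) (φ : V × V → ℕ) : Sym2 V → ℕ :=
  Sym2.lift ⟨fun x y => if x ∈ A then (if y ∈ A then 0 else φ (x, y)) else
    (if y ∈ A then φ (y, x) else 0), by
      intro x y
      by_cases hx : x ∈ A <;> by_cases hy : y ∈ A <;> simp [hx, hy]⟩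

theorem und_l {V : Type} {A : Set V} (φ : V × V → ℕ) {x y : V} (hx : x ∈ A) (hy : y ∉ A) :
    und A φ s(x, y) = φ (x, y) := by
  simp [und, hx, hy]

theorem und_r {V : Type} {A : Set V} (φ : V × V → ℕ) {x y : V} (hx : x ∈ A) (hy : y ∉ A) :
    und A φ s(y, x) = φ (x, y) := by
  rw [Sym2.eq_swap]
  exact und_l φ hx hy

theorem assemble {V : Type} {G : SimpleGraph V} {H : G.Subgraph} {A : Set V} (hA : Side G A)
    {k : ℕ} {g : V → ℕ} {f : Sym2 V → ℕ} (hcol : TotalColouring H.verts H.edgeSet k g f)
    (c : V → ℕ) (hc1 : ∀ v, c v < k) (hc2 : ∀ v ∈ H.verts, c v = g v)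
    (hc3 : ∀ u v, G.Adj u v → c u ≠ c v) (φ : V × V → ℕ)
    (h1 : ∀ x y, x ∈ A → G.Adj x y → ¬ H.Adj x y → φ (x, y) < k ∧ φ (x, y) ≠ c x ∧
      φ (x, y) ≠ c y ∧ (∀ v, H.Adj x v → φ (x, y) ≠ f s(x, v)) ∧
      ∀ u, H.Adj y u → φ (x, y) ≠ f s(y, u))
    (h2 : ∀ x y y', x ∈ A → G.Adj x y → ¬ H.Adj x y → G.Adj x y' → ¬ H.Adj x y' → y ≠ y' →
      φ (x, y) ≠ φ (x, y'))
    (h3 : ∀ x x' y, x ∈ A → x' ∈ A → G.Adj x y → ¬ H.Adj x y → G.Adj x' y → ¬ H.Adj x' y →
      x ≠ x' → φ (x, y) ≠ φ (x', y)) : Extends G H k g f := by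
  classical
  obtain ⟨hg, hf, hgg, hff, hgf⟩ := hcol
  set f' : Sym2 V → ℕ := fun e => if e ∈ H.edgeSet then f e else und A φ e with hf'
  have e1 : ∀ v a, H.Adj v a → f' s(v, a) = f s(v, a) := by
    intro v a h
    simp only [hf']
    rw [if_pos (by exact h)]
  have e2 : ∀ v a, v ∈ A → G.Adj v a → ¬ H.Adj v a → f' s(v, a) = φ (v, a) := by
    intro v a hv h h'
    simp only [hf']
    rw [if_neg (by exact h')]
    exact und_l φ hv ((hA v a h).1 hv)
  have e3 : ∀ v a, v ∉ A → G.Adj v a → ¬ H.Adj v a → f' s(v, a) = φ (a, v) := by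
    intro v a hv h h'
    simp only [hf']
    rw [if_neg (by exact h')]
    exact und_r φ (by by_contra hh; exact hv ((hA v a h).2 hh)) hv
  have inA : ∀ v a, v ∉ A → G.Adj v a → a ∈ A := by
    intro v a hv h
    by_contra hh
    exact hv ((hA v a h).2 hh)
  refine ⟨c, f', ⟨fun v _ => hc1 v, ?_, fun u _ v _ h => hc3 u v h, ?_, ?_⟩, hc2, ?_⟩
  · intro e he
    induction e using Sym2.ind with
    | _ x y =>
      have hxy : G.Adj x y := he
      by_cases hH : H.Adj x y
      · rw [e1 x y hH]
        exact hf _ hH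
      · by_cases hx : x ∈ A
        · rw [e2 x y hx hxy hH]
          exact (h1 x y hx hxy hH).1
        · rw [e3 x y hx hxy hH]
          exact (h1 y x (inA x y hx hxy) hxy.symm (fun h => hH h.symm)).1
  · intro e he e' he' hne hv
    obtain ⟨v, hv1, hv2⟩ := hv
    obtain ⟨a, rfl⟩ := Sym2.mem_iff_exists.1 hv1
    obtain ⟨b, rfl⟩ := Sym2.mem_iff_exists.1 hv2
    have ha : G.Adj v a := he
    have hb : G.Adj v b := he'
    have hab : a ≠ b := by
      rintro rfl
      exact hne rfl
    by_cases hHa : H.Adj v a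
    · by_cases hHb : H.Adj v b
      · rw [e1 v a hHa, e1 v b hHb]
        exact hff _ hHa _ hHb hne ⟨v, by simp, by simp⟩
      · rw [e1 v a hHa]
        by_cases hvA : v ∈ A
        · rw [e2 v b hvA hb hHb]
          exact ((h1 v b hvA hb hHb).2.2.2.1 a hHa).symm
        · rw [e3 v b hvA hb hHb]
          exact ((h1 b v (inA v b hvA hb) hb.symm (fun h => hHb h.symm)).2.2.2.2 a hHa).symm
    · by_cases hHb : H.Adj v b
      · rw [e1 v b hHb]
        by_cases hvA : v ∈ A
        · rw [e2 v a hvA ha hHa]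
          exact ((h1 v a hvA ha hHa).2.2.2.1 b hHb)
        · rw [e3 v a hvA ha hHa]
          exact ((h1 a v (inA v a hvA ha) ha.symm (fun h => hHa h.symm)).2.2.2.2 b hHb)
      · by_cases hvA : v ∈ A
        · rw [e2 v a hvA ha hHa, e2 v b hvA hb hHb]
          exact h2 v a b hvA ha hHa hb hHb hab
        · rw [e3 v a hvA ha hHa, e3 v b hvA hb hHb]
          exact h3 a b v (inA v a hvA ha) (inA v b hvA hb) ha.symm (fun h => hHa h.symm) hb.symm
            (fun h => hHb h.symm) hab
  · intro v _ e he hv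
    obtain ⟨a, rfl⟩ := Sym2.mem_iff_exists.1 hv
    have ha : G.Adj v a := he
    by_cases hHa : H.Adj v a
    · rw [e1 v a hHa, hc2 v (H.edge_vert hHa)]
      exact hgf v (H.edge_vert hHa) _ hHa (by simp)
    · by_cases hvA : v ∈ A
      · rw [e2 v a hvA ha hHa]
        exact (h1 v a hvA ha hHa).2.1.symm
      · rw [e3 v a hvA ha hHa]
        exact (h1 a v (inA v a hvA ha) ha.symm (fun h => hHa h.symm)).2.2.1.symm
  · intro e he
    induction e using Sym2.ind with
    | _ x y => exact e1 x y he

/-- Greedy extension of a partial colouring of the vertices. -/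
theorem greedy {V : Type} [Fintype V] (G : SimpleGraph V) (D : ℕ)
    (hD : ∀ v, (G.neighborSet v).ncard ≤ D) (X : Set V) (c0 : V → ℕ)
    (hp : ∀ u ∈ X, ∀ v ∈ X, G.Adj u v → c0 u ≠ c0 v) (S : Finset ℕ) (hS : D < S.card) :
    ∃ c : V → ℕ, (∀ v ∈ X, c v = c0 v) ∧ (∀ v, v ∉ X → c v ∈ S) ∧
      ∀ u v, G.Adj u v → c u ≠ c v := by
  classical
  have key : ∀ T : Finset V, ∃ c : V → ℕ, (∀ v ∈ X, c v = c0 v) ∧ (∀ v ∈ T, v ∉ X → c v ∈ S) ∧
      ∀ u v, (u ∈ X ∨ u ∈ T) → (v ∈ X ∨ v ∈ T) → G.Adj u v → c u ≠ c v := by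
    intro T
    induction T using Finset.induction_on with
    | empty =>
      refine ⟨c0, fun _ _ => rfl, by simp, ?_⟩
      intro u v hu hv h
      simp only [Finset.notMem_empty, or_false] at hu hv
      exact hp u hu v hv h
    | insert a T ha ih =>
      obtain ⟨c, h1, h2, h3⟩ := ih
      by_cases haX : a ∈ X
      · refine ⟨c, h1, ?_, ?_⟩
        · intro v hv hvX
          rw [Finset.mem_insert] at hv
          rcases hv with rfl | hv
          · exact absurd haX hvX
          · exact h2 v hv hvX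
        · intro u v hu hv h
          refine h3 u v ?_ ?_ h
          · rcases hu with hu | hu
            · exact Or.inl hu
            · rw [Finset.mem_insert] at hu
              rcases hu with rfl | hu
              · exact Or.inl haX
              · exact Or.inr hu
          · rcases hv with hv | hv
            · exact Or.inl hv
            · rw [Finset.mem_insert] at hv
              rcases hv with rfl | hv
              · exact Or.inl haX
              · exact Or.inr hv
      · obtain ⟨s, hs, hs'⟩ : ∃ s ∈ S, s ∉ (univ.filter (fun w => G.Adj a w)).image c := by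
          apply Finset.exists_mem_notMem_of_card_lt_card
          refine lt_of_le_of_lt (Finset.card_image_le.trans ?_) hS
          refine le_trans (le_of_eq ?_) (hD a)
          rw [← Set.ncard_coe_finset]
          congr 1
          ext w
          simp
        refine ⟨Function.update c a s, ?_, ?_, ?_⟩
        · intro v hv
          rw [Function.update_of_ne (by rintro rfl; exact haX hv)]
          exact h1 v hv
        · intro v hv hvX
          by_cases hva : v = a
          · subst hva
            rw [Function.update_self]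
            exact hs
          · rw [Function.update_of_ne hva]
            rw [Finset.mem_insert] at hv
            exact h2 v (hv.resolve_left hva) hvX
        · intro u v hu hv h
          have hs2 : ∀ w, G.Adj a w → s ≠ c w := by
            intro w hw he
            apply hs'
            rw [he]
            exact Finset.mem_image_of_mem _ (by simp [hw])
          by_cases hua : u = a
          · subst hua
            rw [Function.update_self, Function.update_of_ne h.ne']
            exact hs2 v h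
          · by_cases hva : v = a
            · subst hva
              rw [Function.update_self, Function.update_of_ne hua]
              exact (hs2 u h.symm).symm
            · rw [Function.update_of_ne hua, Function.update_of_ne hva]
              rw [Finset.mem_insert] at hu hv
              refine h3 u v ?_ ?_ h
              · rcases hu with hu | hu
                · exact Or.inl hu
                · exact Or.inr (hu.resolve_left hua)
              · rcases hv with hv | hv
                · exact Or.inl hv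
                · exact Or.inr (hv.resolve_left hva)
  obtain ⟨c, h1, h2, h3⟩ := key univ
  exact ⟨c, h1, fun v hv => h2 v (mem_univ v) hv, fun u v h =>
    h3 u v (Or.inr (mem_univ u)) (Or.inr (mem_univ v)) h⟩

open Classical in
/-- The edges outside `H`, as ordered pairs. -/
noncomputable def EE {V : Type} [Fintype V] (G : SimpleGraph V) (H : G.Subgraph) (A : Set V) :
    Finset (V × V) :=
  univ.filter (fun e => e.1 ∈ A ∧ G.Adj e.1 e.2 ∧ ¬ H.Adj e.1 e.2)

theorem mem_EE {V : Type} [Fintype V] {G : SimpleGraph V} {H : G.Subgraph} {A : Set V}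
    {e : V × V} : e ∈ EE G H A ↔ e.1 ∈ A ∧ G.Adj e.1 e.2 ∧ ¬ H.Adj e.1 e.2 := by
  simp [EE]

/-- List edge colouring with ranks, on ordered pairs. -/
theorem lists {V : Type} [Fintype V] (E : Finset (V × V)) (L : V × V → Finset ℕ)
    (p q : V × V → ℕ)
    (hp : ∀ e ∈ E, ∀ e' ∈ E, e.1 = e'.1 → p e = p e' → e = e')
    (hq : ∀ e ∈ E, ∀ e' ∈ E, e.2 = e'.2 → q e = q e' → e = e')
    (a b : V × V → ℕ)
    (ha : ∀ e ∈ E, ∀ S : Finset (V × V), (∀ e' ∈ S, e' ∈ E ∧ e'.1 = e.1 ∧ p e < p e') →
      S.card ≤ a e)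
    (hb : ∀ e ∈ E, ∀ S : Finset (V × V), (∀ e' ∈ S, e' ∈ E ∧ e'.2 = e.2 ∧ q e' < q e) →
      S.card ≤ b e)
    (hab : ∀ e ∈ E, a e + b e < (L e).card) :
    ∃ φ : V × V → ℕ, ∀ e ∈ E, φ e ∈ L e ∧
      ∀ e' ∈ E, e' ≠ e → (e'.1 = e.1 ∨ e'.2 = e.2) → φ e' ≠ φ e := by
  classical
  obtain ⟨φ, hφ⟩ := Pool.Agent.TH559.LE.galvin (α := {e // e ∈ E}) (fun e => e.1.1)
    (fun e => e.1.2) (fun e => p e.1) (fun e => q e.1)
    (fun e e' h1 h2 => Subtype.ext (hp e.1 e.2 e'.1 e'.2 h1 h2))
    (fun e e' h1 h2 => Subtype.ext (hq e.1 e.2 e'.1 e'.2 h1 h2))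
    _ univ (fun e => L e.1) rfl (by
      intro e _
      refine lt_of_le_of_lt (Nat.add_le_add ?_ ?_) (hab e.1 e.2)
      · rw [← Finset.card_map (Function.Embedding.subtype _)]
        apply ha e.1 e.2
        intro e' he'
        rw [Finset.mem_map] at he'
        obtain ⟨x, hx, rfl⟩ := he'
        rw [Finset.mem_filter] at hx
        exact ⟨x.2, hx.2⟩
      · rw [← Finset.card_map (Function.Embedding.subtype _)]
        apply hb e.1 e.2
        intro e' he'
        rw [Finset.mem_map] at he'
        obtain ⟨x, hx, rfl⟩ := he'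
        rw [Finset.mem_filter] at hx
        exact ⟨x.2, hx.2⟩)
  refine ⟨fun e => if h : e ∈ E then φ ⟨e, h⟩ else 0, ?_⟩
  intro e he
  obtain ⟨h1, h2⟩ := hφ ⟨e, he⟩ (Finset.mem_univ _)
  simp only [dif_pos he]
  refine ⟨h1, fun f hf hfe hor => ?_⟩
  simp only [dif_pos hf]
  intro heq
  have := h2 ⟨f, hf⟩ (Finset.mem_univ _) (fun h => hfe (congrArg Subtype.val h)) heq
  rcases hor with h | h
  · exact this.1 h
  · exact this.2 h

/-- A finite set on which an injective function has values in a small set. -/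
theorem card_le_inj {V : Type} (S : Finset (V × V)) (ψ : V × V → ℕ) (T : Finset ℕ)
    (h1 : ∀ e ∈ S, ψ e ∈ T) (h2 : ∀ e ∈ S, ∀ e' ∈ S, ψ e = ψ e' → e = e') : S.card ≤ T.card :=
  Finset.card_le_card_of_injOn ψ (fun e he => h1 e he) (fun e he e' he' h => h2 e he e' he' h)

end Pool.Agent.Q177.TC
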