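import Pool.Agent.Q177.TC.Star

/-!
# A colour which is not used in one class: matchings and few edges
-/

set_option autoImplicit false

namespace Pool.Agent.Q177.TC

open Pool.Agent.Q241.DM Finset

/-- Degrees in a set of ordered pairs of adjacent vertices: first coordinate. -/
theorem fst_card {V : Type} [Fintype V] [DecidableEq V] {G : SimpleGraph V} (u : V)
    (S : Finset (V × V)) (hS : ∀ e ∈ S, e.1 = u ∧ G.Adj e.1 e.2) :
    S.card ≤ (G.neighborSet u).ncard := by
  have h1 : S.card = (S.image Prod.snd).card := by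
    rw [Finset.card_image_of_injOn]
    intro a ha b hb hab
    exact Prod.ext ((hS a ha).1.trans (hS b hb).1.symm) hab
  rw [h1]
  apply nb_card
  intro w hw
  rw [Finset.mem_image] at hw
  obtain ⟨e, he, rfl⟩ := hw
  rw [← (hS e he).1]
  exact (hS e he).2

/-- Degrees in a set of ordered pairs of adjacent vertices: second coordinate. -/
theorem snd_card {V : Type} [Fintype V] [DecidableEq V] {G : SimpleGraph V} (u : V)
    (S : Finset (V × V)) (hS : ∀ e ∈ S, e.2 = u ∧ G.Adj e.1 e.2) :
    S.card ≤ (G.neighborSet u).ncard := by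
  have h1 : S.card = (S.image Prod.fst).card := by
    rw [Finset.card_image_of_injOn]
    intro a ha b hb hab
    exact Prod.ext hab ((hS a ha).1.trans (hS b hb).1.symm)
  rw [h1]
  apply nb_card
  intro w hw
  rw [Finset.mem_image] at hw
  obtain ⟨e, he, rfl⟩ := hw
  rw [← (hS e he).1]
  exact (hS e he).2.symm

/-- The theorem of Borodin, Kostochka and Woodall, with bounds for arbitrary sets of edges. -/
theorem bkw' {V : Type} [Fintype V] (E : Finset (V × V)) (L : V × V → Finset ℕ)
    (h1 : ∀ e ∈ E, ∀ S : Finset (V × V), (∀ e' ∈ S, e' ∈ E ∧ e'.1 = e.1) → S.card ≤ (L e).card)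
    (h2 : ∀ e ∈ E, ∀ S : Finset (V × V), (∀ e' ∈ S, e' ∈ E ∧ e'.2 = e.2) → S.card ≤ (L e).card) :
    ∃ φ : V × V → ℕ, ∀ e ∈ E, φ e ∈ L e ∧
      ∀ f ∈ E, f ≠ e → (f.1 = e.1 ∨ f.2 = e.2) → φ f ≠ φ e := by
  classical
  apply Pool.Agent.TH559.LE.bkw
  intro e he
  refine max_le (h1 e he _ ?_) (h2 e he _ ?_)
  · intro e' he'
    rwa [Finset.mem_filter] at he'
  · intro e' he'
    rwa [Finset.mem_filter] at he'

/-- Graphs of maximum degree at most one. -/
theorem small {V : Type} [Fintype V] {G : SimpleGraph V} {H : G.Subgraph} {A : Set V}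
    (hA : Side G A) (D : ℕ) (hD2 : D < 2) (hD : ∀ v, (G.neighborSet v).ncard ≤ D)
    (hH : DistanceThreeMatching G H)
    (g : V → ℕ) (f : Sym2 V → ℕ) (hcol : TotalColouring H.verts H.edgeSet (D + 2) g f) :
    Extends G H (D + 2) g f := by
  classical
  refine free hA D hD hH g f hcol ?_
  intro u v u' v' w z h1 _ _ _ _ h2 h3 _ _
  exfalso
  have h4 := nb_card G u {v, w} (by
    intro x hx
    rw [Finset.mem_insert, Finset.mem_singleton] at hx
    rcases hx with rfl | rfl
    · exact H.adj_sub h1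
    · exact h2)
  rw [Finset.card_pair (Ne.symm h3)] at h4
  have := hD u
  omega

/-- The theorem with a matching. -/
theorem starM {V : Type} [Fintype V] {G : SimpleGraph V} {H : G.Subgraph} {A : Set V}
    (hA : Side G A) (D : ℕ) (hD : ∀ v, (G.neighborSet v).ncard ≤ D)
    (hH : DistanceThreeMatching G H)
    (g : V → ℕ) (f : Sym2 V → ℕ) (hcol : TotalColouring H.verts H.edgeSet (D + 2) g f)
    (α : ℕ) (hα : α < D + 2) (hgα : ∀ v ∈ H.verts, v ∉ A → g v ≠ α)
    (M : G.Subgraph) (hM : M.IsMatching)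
    (hMH : ∀ u v, H.Adj u v → (M.Adj u v ↔ f s(u, v) = α))
    (hM1 : ∀ v, v ∉ H.verts → (G.neighborSet v).ncard = D → v ∈ M.verts)
    (hM2 : ∀ v ∈ H.verts, v ∉ A → (G.neighborSet v).ncard = D → v ∈ M.verts) :
    Extends G H (D + 2) g f := by
  classical
  rcases Nat.lt_or_ge D 2 with hD2 | hD2
  · exact small hA D hD2 hD hH g f hcol
  set E1 : Finset (V × V) := (EE G H A).filter (fun e => ¬ M.Adj e.1 e.2) with hE1
  have hmE1 : ∀ e, e ∈ E1 ↔ e ∈ EE G H A ∧ ¬ M.Adj e.1 e.2 := fun e => by
    rw [hE1, Finset.mem_filter]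
  have hMu : ∀ x y z, M.Adj x y → M.Adj x z → y = z := by
    intro x y z h1 h2
    obtain ⟨w, _, hw⟩ := hM (M.edge_vert h1)
    exact (hw y h1).trans (hw z h2).symm
  -- a neighbour which is joined by an edge outside `E1`
  have hex : ∀ v, (G.neighborSet v).ncard = D → ∃ w, G.Adj v w ∧ (M.Adj v w ∨ H.Adj v w) := by
    intro v hv
    by_cases hvH : v ∈ H.verts
    · exact ⟨_, H.adj_sub (mate_adj hH hvH), Or.inr (mate_adj hH hvH)⟩
    · obtain ⟨w, hw, _⟩ := hM (hM1 v hvH hv)
      exact ⟨w, M.adj_sub hw, Or.inl hw⟩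
  obtain ⟨c, hc1, hc2⟩ := Pool.Agent.TH559.LE.K1 E1 (D - 1) (by
    intro u
    rcases (hD u).lt_or_eq with h | h
    · have := fst_card (G := G) u (E1.filter (fun e => e.1 = u)) (by
        intro e he
        rw [Finset.mem_filter, hmE1] at he
        exact ⟨he.2, (mem_EE.1 he.1.1).2.1⟩)
      omega
    · obtain ⟨w, hw1, hw2⟩ := hex u h
      have h3 : (u, w) ∉ E1.filter (fun e => e.1 = u) := by
        intro h4
        rw [Finset.mem_filter, hmE1] at h4
        rcases hw2 with h5 | h5
        · exact h4.1.2 h5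
        · exact (mem_EE.1 h4.1.1).2.2 h5
      have := fst_card (G := G) u (insert (u, w) (E1.filter (fun e => e.1 = u))) (by
        intro e he
        rw [Finset.mem_insert] at he
        rcases he with rfl | he
        · exact ⟨rfl, hw1⟩
        · rw [Finset.mem_filter, hmE1] at he
          exact ⟨he.2, (mem_EE.1 he.1.1).2.1⟩)
      rw [Finset.card_insert_of_notMem h3] at this
      omega) (by
    intro u
    rcases (hD u).lt_or_eq with h | h
    · have := snd_card (G := G) u (E1.filter (fun e => e.2 = u)) (by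
        intro e he
        rw [Finset.mem_filter, hmE1] at he
        exact ⟨he.2, (mem_EE.1 he.1.1).2.1⟩)
      omega
    · obtain ⟨w, hw1, hw2⟩ := hex u h
      have h3 : (w, u) ∉ E1.filter (fun e => e.2 = u) := by
        intro h4
        rw [Finset.mem_filter, hmE1] at h4
        rcases hw2 with h5 | h5
        · exact h4.1.2 h5.symm
        · exact (mem_EE.1 h4.1.1).2.2 h5.symm
      have := snd_card (G := G) u (insert (w, u) (E1.filter (fun e => e.2 = u))) (by
        intro e he
        rw [Finset.mem_insert] at he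
        rcases he with rfl | he
        · exact ⟨rfl, hw1.symm⟩
        · rw [Finset.mem_filter, hmE1] at he
          exact ⟨he.2, (mem_EE.1 he.1.1).2.1⟩)
      rw [Finset.card_insert_of_notMem h3] at this
      omega)
  let ψ : V × V → ℕ := fun e => if M.Adj e.1 e.2 then D - 1 else c e
  have hψM : ∀ e, M.Adj e.1 e.2 → ψ e = D - 1 := fun e h => by simp only [ψ]; rw [if_pos h]
  have hψc : ∀ e, ¬ M.Adj e.1 e.2 → ψ e = c e := fun e h => by simp only [ψ]; rw [if_neg h]
  have hψl : ∀ e ∈ EE G H A, ψ e = D - 1 → M.Adj e.1 e.2 := by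
    intro e he h
    by_contra hn
    rw [hψc e hn] at h
    have := hc1 e ((hmE1 e).2 ⟨he, hn⟩)
    omega
  refine star hA D hD2 hD hH g f hcol α hα hgα ψ ?_ ?_ ?_ ?_ ?_
  · intro e he
    by_cases h : M.Adj e.1 e.2
    · rw [hψM e h]
      omega
    · rw [hψc e h]
      have := hc1 e ((hmE1 e).2 ⟨he, h⟩)
      omega
  · intro e he e' he' h1 h2
    by_cases h : M.Adj e.1 e.2
    · rw [hψM e h] at h2
      have h3 := hψl e' he' h2.symm
      rw [← h1] at h3
      exact Prod.ext h1 (hMu _ _ _ h h3)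
    · by_cases h' : M.Adj e'.1 e'.2
      · rw [hψM e' h'] at h2
        exact absurd (hψl e he h2) h
      · rw [hψc e h, hψc e' h'] at h2
        by_contra hne
        exact hc2 e ((hmE1 e).2 ⟨he, h⟩) e' ((hmE1 e').2 ⟨he', h'⟩) hne (Or.inl h1) h2
  · intro e he e' he' h1 h2
    by_cases h : M.Adj e.1 e.2
    · rw [hψM e h] at h2
      have h3 := hψl e' he' h2.symm
      rw [← h1] at h3
      exact Prod.ext (hMu _ _ _ h.symm h3.symm) h1
    · by_cases h' : M.Adj e'.1 e'.2
      · rw [hψM e' h'] at h2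
        exact absurd (hψl e he h2) h
      · rw [hψc e h, hψc e' h'] at h2
        by_contra hne
        exact hc2 e ((hmE1 e).2 ⟨he, h⟩) e' ((hmE1 e').2 ⟨he', h'⟩) hne (Or.inr h1) h2
  · intro v hv hvA hdeg hfv
    obtain ⟨z, hz, _⟩ := hM (hM2 v hv hvA hdeg)
    have hz' : ¬ H.Adj v z := by
      intro h
      apply hfv
      rw [mate_eq hH h]
      exact (hMH v z h).1 hz
    exact ⟨z, mem_EE.2 ⟨mem_side hA (M.adj_sub hz) hvA, (M.adj_sub hz).symm,
      fun h => hz' h.symm⟩, hψM _ hz.symm⟩
  · intro u w hu he hfu h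
    have h1 := hψl _ he h
    have h2 := (hMH u (mate H u) (mate_adj hH hu)).2 hfu
    have h3 := hMu _ _ _ h1 h2
    apply (mem_EE.1 he).2.2
    simp only
    simp only at h3
    rw [h3]
    exact mate_adj hH hu

/-- Few vertices of full degree in one class of `H`. -/
theorem few {V : Type} [Fintype V] {G : SimpleGraph V} {H : G.Subgraph} {A : Set V}
    (hA : Side G A) (D : ℕ) (hD : ∀ v, (G.neighborSet v).ncard ≤ D)
    (hH : DistanceThreeMatching G H)
    (hfew : {v | v ∈ H.verts ∧ v ∉ A ∧ (G.neighborSet v).ncard = D}.ncard < D)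
    (g : V → ℕ) (f : Sym2 V → ℕ) (hcol : TotalColouring H.verts H.edgeSet (D + 2) g f)
    (α : ℕ) (hα : α < D + 2) (hgα : ∀ v ∈ H.verts, v ∉ A → g v ≠ α)
    (hfα : ∀ e ∈ H.edgeSet, f e ≠ α) :
    Extends G H (D + 2) g f := by
  classical
  rcases Nat.lt_or_ge D 2 with hD2 | hD2
  · exact small hA D hD2 hD hH g f hcol
  obtain ⟨c, hc1, hc2⟩ := Pool.Agent.TH559.LE.K1 (EE G H A) D (by
    intro u
    exact (fst_card (G := G) u _ (by
      intro e he
      rw [Finset.mem_filter] at he
      exact ⟨he.2, (mem_EE.1 he.1).2.1⟩)).trans (hD u)) (by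
    intro u
    exact (snd_card (G := G) u _ (by
      intro e he
      rw [Finset.mem_filter] at he
      exact ⟨he.2, (mem_EE.1 he.1).2.1⟩)).trans (hD u))
  -- a class which covers the vertices of `H` of degree `D` outside `A`
  obtain ⟨t, ht, htc⟩ : ∃ t < D, ∀ v ∈ H.verts, v ∉ A → (G.neighborSet v).ncard = D →
      ∃ z, (z, v) ∈ EE G H A ∧ c (z, v) = t := by
    by_contra hcon
    push Not at hcon
    have hch : ∀ t, ∃ v, t < D → v ∈ H.verts ∧ v ∉ A ∧ (G.neighborSet v).ncard = D ∧
        ∀ z, (z, v) ∈ EE G H A → c (z, v) ≠ t := by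
      intro t
      by_cases ht : t < D
      · obtain ⟨v, h1, h2, h3, h4⟩ := hcon t ht
        exact ⟨v, fun _ => ⟨h1, h2, h3, h4⟩⟩
      · by_cases hne : Nonempty V
        · exact ⟨hne.some, fun h => absurd h ht⟩
        · exfalso
          obtain ⟨v, _⟩ := hcon 0 (by omega)
          exact hne ⟨v⟩
    choose v hv using hch
    set VD : Finset V := univ.filter (fun v => v ∈ H.verts ∧ v ∉ A ∧ (G.neighborSet v).ncard = D)
      with hVD
    have hcardVD : VD.card < D := by
      rw [← Set.ncard_coe_finset]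
      refine lt_of_le_of_lt (le_of_eq ?_) hfew
      congr 1
      ext x
      simp [hVD]
    obtain ⟨s, hs, t, ht, hst, hvst⟩ := Finset.exists_ne_map_eq_of_card_lt_of_maps_to
      (s := Finset.range D) (t := VD) (f := v) (by rw [Finset.card_range]; exact hcardVD) (by
        intro t ht
        have h1 := hv t (Finset.mem_range.1 ht)
        rw [Finset.mem_coe, hVD, Finset.mem_filter]
        exact ⟨Finset.mem_univ _, h1.1, h1.2.1, h1.2.2.1⟩)
    rw [Finset.mem_range] at hs ht
    have h1 := hv s hs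
    have h2 := hv t ht
    rw [← hvst] at h2
    -- the edges at `v s`
    set S : Finset (V × V) := (univ.filter (fun z => G.Adj (v s) z ∧ z ≠ mate H (v s))).image
      (fun z => (z, v s)) with hS
    have hSin : ∀ e ∈ S, e ∈ EE G H A ∧ e.2 = v s := by
      intro e he
      rw [hS, Finset.mem_image] at he
      obtain ⟨z, hz, rfl⟩ := he
      rw [Finset.mem_filter] at hz
      refine ⟨mem_EE.2 ⟨mem_side hA hz.2.1 h1.2.1, hz.2.1.symm, ?_⟩, rfl⟩
      intro h
      exact hz.2.2 (mate_eq hH h.symm).symm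
    have hcS : D ≤ S.card + 1 := by
      rw [hS, Finset.card_image_of_injective _ (fun a b h => (Prod.ext_iff.1 h).1)]
      have h3 : G.neighborSet (v s) ⊆
          ((insert (mate H (v s)) (univ.filter (fun z => G.Adj (v s) z ∧ z ≠ mate H (v s))) :
            Finset V) : Set V) := by
        intro z hz
        rw [Finset.coe_insert, Set.mem_insert_iff, Finset.mem_coe, Finset.mem_filter]
        by_cases h4 : z = mate H (v s)
        · exact Or.inl h4
        · exact Or.inr ⟨Finset.mem_univ _, hz, h4⟩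
      have h4 := Set.ncard_le_ncard h3 (Finset.finite_toSet _)
      rw [Set.ncard_coe_finset, h1.2.2.1] at h4
      exact h4.trans (Finset.card_insert_le _ _)
    have h3 := card_le_inj S c (((Finset.range D).erase s).erase t) (by
      intro e he
      have h4 := hSin e he
      have h5 : e = (e.1, v s) := Prod.ext rfl h4.2
      rw [Finset.mem_erase, Finset.mem_erase, Finset.mem_range]
      refine ⟨?_, ?_, hc1 e h4.1⟩
      · rw [h5]
        exact h2.2.2.2 e.1 (by rw [← h5]; exact h4.1)
      · rw [h5]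
        exact h1.2.2.2 e.1 (by rw [← h5]; exact h4.1)) (by
      intro e he e' he' h
      by_contra hne
      exact hc2 e (hSin e he).1 e' (hSin e' he').1 hne
        (Or.inr ((hSin e he).2.trans (hSin e' he').2.symm)) h)
    rw [Finset.card_erase_of_mem, Finset.card_erase_of_mem (Finset.mem_range.2 hs),
      Finset.card_range] at h3
    · omega
    · rw [Finset.mem_erase, Finset.mem_range]
      exact ⟨Ne.symm hst, ht⟩
  have hsw : ∀ n, n < D → Equiv.swap t (D - 1) n < D := by
    intro n hn
    rw [Equiv.swap_apply_def]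
    split_ifs <;> omega
  refine star hA D hD2 hD hH g f hcol α hα hgα (fun e => Equiv.swap t (D - 1) (c e)) ?_ ?_ ?_ ?_ ?_
  · intro e he
    exact hsw _ (hc1 e he)
  · intro e he e' he' h1 h2
    by_contra hne
    exact hc2 e he e' he' hne (Or.inl h1) ((Equiv.swap t (D - 1)).injective h2)
  · intro e he e' he' h1 h2
    by_contra hne
    exact hc2 e he e' he' hne (Or.inr h1) ((Equiv.swap t (D - 1)).injective h2)
  · intro v hv hvA hdeg _
    obtain ⟨z, h1, h2⟩ := htc v hv hvA hdeg
    refine ⟨z, h1, ?_⟩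
    simp only [h2]
    exact Equiv.swap_apply_left _ _
  · intro u w hu _ hfu
    exact absurd hfu (hfα _ (mate_adj hH hu))

end Pool.Agent.Q177.TC
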