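import Pool.Agent.Q177.TC.Core

/-!
# The criterion with an edge colouring
-/

set_option autoImplicit false

namespace Pool.Agent.Q177.TC

open Pool.Agent.Q241.DM Finset

section

variable {V : Type} {G : SimpleGraph V} {H : G.Subgraph} {A : Set V}

/-- The partner of a vertex of the matching. -/
noncomputable def mate (H : G.Subgraph) (x : V) : V := by
  classical
  exact if h : ∃ v, H.Adj x v then Classical.choose h else x

theorem mate_adj (hH : DistanceThreeMatching G H) {x : V} (hx : x ∈ H.verts) :
    H.Adj x (mate H x) := by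
  obtain ⟨v, hv, _⟩ := hH.1 hx
  have h : ∃ v, H.Adj x v := ⟨v, hv⟩
  unfold mate
  rw [dif_pos h]
  exact Classical.choose_spec h

theorem mate_eq (hH : DistanceThreeMatching G H) {x v : V} (h : H.Adj x v) : mate H x = v := by
  have hx : x ∈ H.verts := H.edge_vert h
  obtain ⟨w, _, hw⟩ := hH.1 hx
  exact (hw _ (mate_adj hH hx)).trans (hw v h).symm

theorem adj_verts (hH : DistanceThreeMatching G H) {x y : V} (hx : x ∈ H.verts)
    (hy : y ∈ H.verts) (h : G.Adj x y) : H.Adj x y := hH.isInduced hx hy h

theorem only_one (hA : Side G A) (hH : DistanceThreeMatching G H) {w x y : V} (hx : x ∈ H.verts)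
    (hy : y ∈ H.verts) (h1 : G.Adj w x) (h2 : G.Adj w y) : x = y := by
  by_contra hne
  have h3 := hH.near w x y h1 h2 hx hy hne
  have a1 := hA w x h1
  have a2 := hA w y h2
  have a3 := hA x y (H.adj_sub h3)
  tauto

end

theorem crit {V : Type} [Fintype V] {G : SimpleGraph V} {H : G.Subgraph} {A : Set V}
    (hA : Side G A) (D : ℕ) (hD : ∀ v, (G.neighborSet v).ncard ≤ D)
    (hH : DistanceThreeMatching G H) (ψ : Sym2 V → ℕ) (hψ : ∀ e ∈ G.edgeSet, ψ e < D)
    (hψ' : ∀ v a b, G.Adj v a → G.Adj v b → a ≠ b → ψ s(v, a) ≠ ψ s(v, b))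
    (g : V → ℕ) (f : Sym2 V → ℕ) (hcol : TotalColouring H.verts H.edgeSet (D + 2) g f)
    (hconf : ∀ u v u' v' w z, H.Adj u v → u ∈ A → H.Adj u' v' → u' ∈ A →
      f s(u, v) = f s(u', v') → G.Adj u w → G.Adj v' z → ψ s(u, v) < ψ s(u, w) →
      ψ s(v', z) < ψ s(u', v') → ¬ G.Adj w z) : Extends G H (D + 2) g f := by
  classical
  obtain ⟨hg, hf, hgg, hff, hgf⟩ := id hcol
  -- critical vertices
  let Cr : V → V → Prop := fun w h => h ∈ H.verts ∧ G.Adj h w ∧ w ∉ H.verts ∧
    (h ∈ A → ψ s(h, mate H h) < ψ s(h, w)) ∧ (h ∉ A → ψ s(h, w) < ψ s(h, mate H h))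
  let c0 : V → ℕ := fun w => if w ∈ H.verts then g w else
    if h : ∃ x, Cr w x then f s(Classical.choose h, mate H (Classical.choose h)) else 0
  have hc0H : ∀ w ∈ H.verts, c0 w = g w := by
    intro w hw
    simp only [c0]
    rw [if_pos hw]
  have hc0C : ∀ w x, Cr w x → c0 w = f s(x, mate H x) := by
    intro w x hx
    have h : ∃ x, Cr w x := ⟨x, hx⟩
    simp only [c0]
    rw [if_neg hx.2.2.1, dif_pos h]
    have h1 := Classical.choose_spec h
    have h2 : Classical.choose h = x := only_one hA hH h1.1 hx.1 h1.2.1.symm hx.2.1.symm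
    rw [h2]
  have hfk : ∀ x ∈ H.verts, f s(x, mate H x) < D + 2 := fun x hx => hf _ (mate_adj hH hx)
  obtain ⟨c, hc1, hc2, hc3⟩ := greedy G D hD (H.verts ∪ {w | ∃ x, Cr w x}) c0 (by
    have hHC : ∀ u ∈ H.verts, ∀ w, (∃ x, Cr w x) → G.Adj u w → c0 u ≠ c0 w := by
      intro u hu w hw h
      obtain ⟨x, hx⟩ := hw
      have hux : u = x := only_one hA hH hu hx.1 h.symm hx.2.1.symm
      subst hux
      rw [hc0H u hu, hc0C w u hx]
      exact hgf u hu _ (mate_adj hH hu) (by simp)
    intro u hu v hv h
    rcases hu with hu | hu
    · rcases hv with hv | hv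
      · rw [hc0H u hu, hc0H v hv]
        exact hgg u hu v hv (adj_verts hH hu hv h)
      · exact hHC u hu v hv h
    · rcases hv with hv | hv
      · exact (hHC v hv u hu h.symm).symm
      · obtain ⟨x, hx⟩ := hu
        obtain ⟨y, hy⟩ := hv
        rw [hc0C u x hx, hc0C v y hy]
        intro he
        by_cases hxA : x ∈ A
        · have huA : u ∉ A := (hA x u hx.2.1).1 hxA
          have hvA : v ∈ A := by
            by_contra hh
            exact huA ((hA u v h).2 hh)
          have hyA : y ∉ A := fun hh => (hA y v hy.2.1).1 hh hvA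
          have hm := mate_adj hH hy.1
          have hmA : mate H y ∈ A := by
            by_contra hh
            exact hyA ((hA y _ (H.adj_sub hm)).2 hh)
          refine hconf x (mate H x) (mate H y) y u v (mate_adj hH hx.1) hxA hm.symm hmA ?_
            hx.2.1 hy.2.1 (hx.2.2.2.1 hxA) ?_ h
          · rw [he, Sym2.eq_swap]
          · have := hy.2.2.2.2 hyA
            rwa [Sym2.eq_swap (a := mate H y)]
        · have huA : u ∈ A := by
            by_contra hh
            exact hxA ((hA x u hx.2.1).2 hh)
          have hvA : v ∉ A := (hA u v h).1 huA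
          have hyA : y ∈ A := by
            by_contra hh
            exact hh ((hA y v hy.2.1).2 hvA)
          have hm := mate_adj hH hx.1
          have hmA : mate H x ∈ A := by
            by_contra hh
            exact hxA ((hA x _ (H.adj_sub hm)).2 hh)
          refine hconf y (mate H y) (mate H x) x v u (mate_adj hH hy.1) hyA hm.symm hmA ?_
            hy.2.1 hx.2.1 (hy.2.2.2.1 hyA) ?_ h.symm
          · rw [← he, Sym2.eq_swap]
          · have := hx.2.2.2.2 hxA
            rwa [Sym2.eq_swap (a := mate H x)]) (range (D + 2)) (by simp)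
  have hck : ∀ v, c v < D + 2 := by
    intro v
    by_cases hv : v ∈ H.verts ∪ {w | ∃ x, Cr w x}
    · rw [hc1 v hv]
      rcases hv with hv | ⟨x, hx⟩
      · rw [hc0H v hv]
        exact hg v hv
      · rw [hc0C v x hx]
        exact hfk x hx.1
    · exact Finset.mem_range.1 (hc2 v hv)
  have hcH : ∀ v ∈ H.verts, c v = g v := fun v hv => (hc1 v (Or.inl hv)).trans (hc0H v hv)
  have hcC : ∀ w x, Cr w x → c w = f s(x, mate H x) :=
    fun w x hx => (hc1 w (Or.inr ⟨x, hx⟩)).trans (hc0C w x hx)
  -- the lists
  let fe : V → ℕ := fun x => f s(x, mate H x)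
  let L : V × V → Finset ℕ := fun e => range (D + 2) \
    ({c e.1, c e.2} ∪ ((if e.1 ∈ H.verts then {fe e.1} else ∅) ∪
      (if e.2 ∈ H.verts then {fe e.2} else ∅)))
  let p : V × V → ℕ := fun e => ψ s(e.1, e.2)
  have hpin1 : ∀ e ∈ EE G H A, ∀ e' ∈ EE G H A, e.1 = e'.1 → p e = p e' → e = e' := by
    rintro ⟨x, y⟩ he ⟨x', y'⟩ he' h1 h2
    simp only at h1
    subst h1
    rw [mem_EE] at he he'
    by_contra hne
    exact hψ' x y y' he.2.1 he'.2.1 (fun h => hne (by rw [h])) h2
  have hpin2 : ∀ e ∈ EE G H A, ∀ e' ∈ EE G H A, e.2 = e'.2 → p e = p e' → e = e' := by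
    rintro ⟨x, y⟩ he ⟨x', y'⟩ he' h1 h2
    simp only at h1
    subst h1
    rw [mem_EE] at he he'
    by_contra hne
    refine hψ' y x x' he.2.1.symm he'.2.1.symm (fun h => hne (by rw [h])) ?_
    simp only [p] at h2
    rw [Sym2.eq_swap, h2, Sym2.eq_swap]
  obtain ⟨φ, hφ⟩ := lists (EE G H A) L p p hpin1 hpin2
    (fun e => if e.1 ∈ H.verts ∧ p e < ψ s(e.1, mate H e.1) then D - (p e + 1) - 1
      else D - (p e + 1))
    (fun e => if e.2 ∈ H.verts ∧ ψ s(e.2, mate H e.2) < p e then p e - 1 else p e)
    (by
      intro e he S hS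
      have hin : ∀ e' ∈ S, ∀ e'' ∈ S, p e' = p e'' → e' = e'' := by
        intro e' he' e'' he'' h
        exact hpin1 e' (hS e' he').1 e'' (hS e'' he'').1
          ((hS e' he').2.1.trans (hS e'' he'').2.1.symm) h
      have hlt : ∀ e' ∈ S, p e' ∈ Finset.Ico (p e + 1) D := by
        intro e' he'
        rw [Finset.mem_Ico]
        refine ⟨(hS e' he').2.2, hψ _ ?_⟩
        exact (mem_EE.1 (hS e' he').1).2.1
      split_ifs with hc
      · have h1 := card_le_inj S p ((Finset.Ico (p e + 1) D).erase (ψ s(e.1, mate H e.1))) (by
          intro e' he'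
          rw [Finset.mem_erase]
          refine ⟨?_, hlt e' he'⟩
          have h2 := mem_EE.1 (hS e' he').1
          have h3 := (hS e' he').2.1
          simp only [p]
          rw [h3] at h2 ⊢
          refine hψ' e.1 _ _ h2.2.1 (H.adj_sub (mate_adj hH hc.1)) ?_
          intro h4
          rw [h4] at h2
          exact h2.2.2 (mate_adj hH hc.1)) hin
        rw [Finset.card_erase_of_mem, Nat.card_Ico] at h1
        · exact h1
        · rw [Finset.mem_Ico]
          exact ⟨hc.2, hψ _ (H.adj_sub (mate_adj hH hc.1))⟩
      · have h1 := card_le_inj S p (Finset.Ico (p e + 1) D) hlt hin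
        rwa [Nat.card_Ico] at h1)
    (by
      intro e he S hS
      have hin : ∀ e' ∈ S, ∀ e'' ∈ S, p e' = p e'' → e' = e'' := by
        intro e' he' e'' he'' h
        exact hpin2 e' (hS e' he').1 e'' (hS e'' he'').1
          ((hS e' he').2.1.trans (hS e'' he'').2.1.symm) h
      have hlt : ∀ e' ∈ S, p e' ∈ Finset.range (p e) := by
        intro e' he'
        rw [Finset.mem_range]
        exact (hS e' he').2.2
      split_ifs with hc
      · have h1 := card_le_inj S p ((Finset.range (p e)).erase (ψ s(e.2, mate H e.2))) (by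
          intro e' he'
          rw [Finset.mem_erase]
          refine ⟨?_, hlt e' he'⟩
          have h2 := mem_EE.1 (hS e' he').1
          have h3 := (hS e' he').2.1
          simp only [p]
          rw [h3] at h2 ⊢
          rw [Sym2.eq_swap]
          refine hψ' e.2 _ _ h2.2.1.symm (H.adj_sub (mate_adj hH hc.1)) ?_
          intro h4
          rw [h4] at h2
          exact h2.2.2 (mate_adj hH hc.1).symm) hin
        rw [Finset.card_erase_of_mem, Finset.card_range] at h1
        · exact h1
        · rw [Finset.mem_range]
          exact hc.2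
      · have h1 := card_le_inj S p (Finset.range (p e)) hlt hin
        rwa [Finset.card_range] at h1)
    (by
      rintro ⟨x, y⟩ he
      have he1 := mem_EE.1 he
      simp only at he1
      have hpD : p (x, y) < D := hψ _ he1.2.1
      have hcard : D + 2 ≤ (L (x, y)).card + (({c x, c y} ∪ ((if x ∈ H.verts then {fe x} else ∅) ∪
          (if y ∈ H.verts then {fe y} else ∅)) : Finset ℕ)).card := by
        have := Finset.le_card_sdiff ({c x, c y} ∪ ((if x ∈ H.verts then {fe x} else ∅) ∪
          (if y ∈ H.verts then {fe y} else ∅)) : Finset ℕ) (range (D + 2))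
        rw [Finset.card_range] at this
        simp only [L]
        omega
      by_cases hx : x ∈ H.verts
      · have hy : y ∉ H.verts := fun hy => he1.2.2 (adj_verts hH hx hy he1.2.1)
        simp only [hx, hy, if_true, if_false, true_and, false_and, Finset.union_empty] at hcard ⊢
        by_cases hlt : p (x, y) < ψ s(x, mate H x)
        · rw [if_pos hlt]
          have h3 : ({c x, c y} ∪ {fe x} : Finset ℕ).card ≤ 3 := by
            refine (Finset.card_union_le _ _).trans ?_
            have := Finset.card_le_two (a := c x) (b := c y)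
            simp only [Finset.card_singleton]
            omega
          have h4 : ψ s(x, mate H x) < D := hψ _ (H.adj_sub (mate_adj hH hx))
          omega
        · rw [if_neg hlt]
          have h5 : Cr y x := by
            refine ⟨hx, he1.2.1, hy, fun _ => ?_, fun h => absurd he1.1 h⟩
            have h6 : ψ s(x, mate H x) ≠ ψ s(x, y) := by
              refine hψ' x _ _ (H.adj_sub (mate_adj hH hx)) he1.2.1 ?_
              intro h
              apply he1.2.2
              rw [← h]
              exact mate_adj hH hx
            simp only [p] at hlt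
            omega
          have h7 : c y = fe x := hcC y x h5
          have h3 : ({c x, c y} ∪ {fe x} : Finset ℕ).card ≤ 2 := by
            rw [h7]
            have h8 : ({c x, fe x} ∪ {fe x} : Finset ℕ) = {c x, fe x} := by
              ext t
              simp only [Finset.mem_union, Finset.mem_insert, Finset.mem_singleton]
              tauto
            rw [h8]
            exact Finset.card_le_two
          omega
      · by_cases hy : y ∈ H.verts
        · simp only [hx, hy, if_true, if_false, true_and, false_and, Finset.empty_union] at hcard ⊢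
          by_cases hlt : ψ s(y, mate H y) < p (x, y)
          · rw [if_pos hlt]
            have h3 : ({c x, c y} ∪ {fe y} : Finset ℕ).card ≤ 3 := by
              refine (Finset.card_union_le _ _).trans ?_
              have := Finset.card_le_two (a := c x) (b := c y)
              simp only [Finset.card_singleton]
              omega
            omega
          · rw [if_neg hlt]
            have hyA : y ∉ A := (hA x y he1.2.1).1 he1.1
            have h5 : Cr x y := by
              refine ⟨hy, he1.2.1.symm, hx, fun h => absurd h hyA, fun _ => ?_⟩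
              have h6 : ψ s(y, mate H y) ≠ ψ s(y, x) := by
                refine hψ' y _ _ (H.adj_sub (mate_adj hH hy)) he1.2.1.symm ?_
                intro h
                apply he1.2.2
                have h9 := mate_adj hH hy
                rw [h] at h9
                exact h9.symm
              simp only [p] at hlt
              rw [Sym2.eq_swap (a := x)] at hlt
              omega
            have h7 : c x = fe y := hcC x y h5
            have h3 : ({c x, c y} ∪ {fe y} : Finset ℕ).card ≤ 2 := by
              rw [h7]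
              have h8 : ({fe y, c y} ∪ {fe y} : Finset ℕ) = {fe y, c y} := by
                ext t
                simp only [Finset.mem_union, Finset.mem_insert, Finset.mem_singleton]
                tauto
              rw [h8]
              exact Finset.card_le_two
            omega
        · simp only [hx, hy, if_false, false_and, Finset.union_empty] at hcard ⊢
          have := Finset.card_le_two (a := c x) (b := c y)
          omega)
  have hmem : ∀ x y, x ∈ A → G.Adj x y → ¬ H.Adj x y → (x, y) ∈ EE G H A :=
    fun x y h1 h2 h3 => mem_EE.2 ⟨h1, h2, h3⟩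
  apply assemble hA hcol c hck hcH hc3 φ
  · intro x y hx hxy hn
    have h1 := (hφ _ (hmem x y hx hxy hn)).1
    simp only [L, Finset.mem_sdiff, Finset.mem_range, Finset.mem_union, Finset.mem_insert,
      Finset.mem_singleton, not_or] at h1
    refine ⟨h1.1, h1.2.1.1, h1.2.1.2, ?_, ?_⟩
    · intro v hv
      have h2 := h1.2.2.1
      rw [if_pos (H.edge_vert hv), Finset.mem_singleton] at h2
      simp only [fe, mate_eq hH hv] at h2
      exact h2
    · intro u hu
      have h2 := h1.2.2.2
      rw [if_pos (H.edge_vert hu), Finset.mem_singleton] at h2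
      simp only [fe, mate_eq hH hu] at h2
      exact h2
  · intro x y y' hx h1 h2 h3 h4 hne
    exact ((hφ _ (hmem x y hx h1 h2)).2 _ (hmem x y' hx h3 h4)
      (fun h => hne (Prod.ext_iff.1 h).2.symm) (Or.inl rfl)).symm
  · intro x x' y hx hx' h1 h2 h3 h4 hne
    exact ((hφ _ (hmem x y hx h1 h2)).2 _ (hmem x' y hx' h3 h4)
      (fun h => hne (Prod.ext_iff.1 h).1.symm) (Or.inr rfl)).symm

end Pool.Agent.Q177.TC
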