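import Pool.Agent.Q177.TC.Cor

/-!
# A colour which is not used in one class
-/

set_option autoImplicit false

namespace Pool.Agent.Q177.TC

open Pool.Agent.Q241.DM Finset

/-- The case of a colour `α` which is not used on the vertices of `H` outside `A`. -/
theorem star {V : Type} [Fintype V] {G : SimpleGraph V} {H : G.Subgraph} {A : Set V}
    (hA : Side G A) (D : ℕ) (hD2 : 2 ≤ D) (hD : ∀ v, (G.neighborSet v).ncard ≤ D)
    (hH : DistanceThreeMatching G H)
    (g : V → ℕ) (f : Sym2 V → ℕ) (hcol : TotalColouring H.verts H.edgeSet (D + 2) g f)
    (α : ℕ) (hα : α < D + 2) (hgα : ∀ v ∈ H.verts, v ∉ A → g v ≠ α)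
    (ψ : V × V → ℕ) (hψ : ∀ e ∈ EE G H A, ψ e < D)
    (hψ1 : ∀ e ∈ EE G H A, ∀ e' ∈ EE G H A, e.1 = e'.1 → ψ e = ψ e' → e = e')
    (hψ2 : ∀ e ∈ EE G H A, ∀ e' ∈ EE G H A, e.2 = e'.2 → ψ e = ψ e' → e = e')
    (hcov : ∀ v ∈ H.verts, v ∉ A → (G.neighborSet v).ncard = D → f s(v, mate H v) ≠ α →
      ∃ z, (z, v) ∈ EE G H A ∧ ψ (z, v) = D - 1)
    (hno : ∀ u w, u ∈ H.verts → (u, w) ∈ EE G H A → f s(u, mate H u) = α →
      ψ (u, w) ≠ D - 1) :
    Extends G H (D + 2) g f := by
  classical
  obtain ⟨hg, hf, hgg, hff, hgf⟩ := id hcol
  let fe : V → ℕ := fun x => f s(x, mate H x)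
  let W : V → Prop := fun y => ∃ u, u ∈ H.verts ∧ u ∈ A ∧ G.Adj u y ∧ g u ≠ α
  let nbU : V → Finset V := fun y => univ.filter (fun u => u ∈ H.verts ∧ u ∈ A ∧ G.Adj u y)
  let RE : Finset (V × V) := (EE G H A).filter
    (fun e => ¬ (e.1 ∈ H.verts ∧ g e.1 ≠ α ∧ ψ e = D - 1))
  let PE : Finset (V × V) := univ.filter (fun e => e.1 = e.2 ∧ e.2 ∉ A ∧ e.2 ∉ H.verts)
  let E : Finset (V × V) := RE ∪ PE
  let L : V × V → Finset ℕ := fun e => if e.1 = e.2 then
      range (D + 2) \ ({α} ∪ (nbU e.2).image g)
    else range (D + 2) \
      ({α} ∪ ((if e.1 ∈ H.verts then {g e.1, fe e.1} else ∅) ∪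
        (if e.2 ∈ H.verts then {g e.2, fe e.2} else ∅)))
  let p : V × V → ℕ := fun e => if e.2 ∈ H.verts ∧ ψ e = 0 then 2 * D - 3 else 2 * ψ e
  let q : V × V → ℕ := fun e => if e.1 = e.2 then (if W e.2 then 2 * D - 3 else 2 * D) else p e
  have hps : ∀ e : V × V, e.2 ∈ H.verts → ψ e = 0 → p e = 2 * D - 3 := fun e h1 h2 => by
    simp only [p]; rw [if_pos ⟨h1, h2⟩]
  have hpn : ∀ e : V × V, ¬ (e.2 ∈ H.verts ∧ ψ e = 0) → p e = 2 * ψ e := fun e h => by
    simp only [p]; rw [if_neg h]
  have hqr : ∀ e : V × V, e.1 ≠ e.2 → q e = p e := fun e h => by
    simp only [q]; rw [if_neg h]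
  have hqw : ∀ e : V × V, e.1 = e.2 → W e.2 → q e = 2 * D - 3 := fun e h h' => by
    simp only [q]; rw [if_pos h, if_pos h']
  have hqn : ∀ e : V × V, e.1 = e.2 → ¬ W e.2 → q e = 2 * D := fun e h h' => by
    simp only [q]; rw [if_pos h, if_neg h']
  have hREE : ∀ e ∈ RE, e ∈ EE G H A := fun e he => (Finset.mem_filter.1 he).1
  have hne : ∀ e ∈ EE G H A, e.1 ≠ e.2 := fun e he => (mem_EE.1 he).2.1.ne
  have hsndA : ∀ e ∈ EE G H A, e.2 ∉ A := fun e he => (hA _ _ (mem_EE.1 he).2.1).1 (mem_EE.1 he).1
  have hEcase : ∀ e ∈ E, e ∈ RE ∨ e ∈ PE := fun e he => Finset.mem_union.1 he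
  have hPE : ∀ e, e ∈ PE ↔ (e.1 = e.2 ∧ e.2 ∉ A ∧ e.2 ∉ H.verts) := by
    intro e
    simp only [PE, Finset.mem_filter, Finset.mem_univ, true_and]
  have hbH : ∀ e ∈ EE G H A, e.1 ∈ H.verts → e.2 ∉ H.verts := fun e he h1 h2 =>
    (mem_EE.1 he).2.2 (adj_verts hH h1 h2 (mem_EE.1 he).2.1)
  -- elements with the same first coordinate
  have hfst : ∀ e ∈ RE, ∀ e' ∈ E, e'.1 = e.1 → e' ∈ RE := by
    intro e he e' he' h
    rcases hEcase e' he' with h1 | h1
    · exact h1
    · rw [hPE] at h1
      exfalso
      apply h1.2.1
      rw [← h1.1, h]
      exact (mem_EE.1 (hREE e he)).1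
  have hfstP : ∀ e ∈ PE, ∀ e' ∈ E, e'.1 = e.1 → e' = e := by
    intro e he e' he' h
    rw [hPE] at he
    rcases hEcase e' he' with h1 | h1
    · exfalso
      apply he.2.1
      rw [← he.1, ← h]
      exact (mem_EE.1 (hREE e' h1)).1
    · rw [hPE] at h1
      exact Prod.ext h (by rw [← h1.1, ← he.1, h])
  -- at most one special edge at a vertex of `A`
  have hspec : ∀ e ∈ EE G H A, ∀ e' ∈ EE G H A, e.1 = e'.1 → e.2 ∈ H.verts → e'.2 ∈ H.verts →
      e = e' := by
    intro e he e' he' h h1 h2
    refine Prod.ext h (only_one hA hH h1 h2 (mem_EE.1 he).2.1 ?_)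
    rw [h]
    exact (mem_EE.1 he').2.1
  have hp1 : ∀ e ∈ E, ∀ e' ∈ E, e.1 = e'.1 → p e = p e' → e = e' := by
    intro e he e' he' h1 h2
    rcases hEcase e he with h3 | h3
    · have h4 := hfst e h3 e' he' h1.symm
      have a1 := hREE e h3
      have a2 := hREE e' h4
      by_cases s1 : e.2 ∈ H.verts ∧ ψ e = 0
      · by_cases s2 : e'.2 ∈ H.verts ∧ ψ e' = 0
        · exact hspec e a1 e' a2 h1 s1.1 s2.1
        · simp only [p] at h2
          rw [if_pos s1, if_neg s2] at h2
          omega
      · by_cases s2 : e'.2 ∈ H.verts ∧ ψ e' = 0
        · simp only [p] at h2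
          rw [if_neg s1, if_pos s2] at h2
          omega
        · simp only [p] at h2
          rw [if_neg s1, if_neg s2] at h2
          exact hψ1 e a1 e' a2 h1 (by omega)
    · exact (hfstP e h3 e' he' h1.symm).symm
  have hq2 : ∀ e ∈ E, ∀ e' ∈ E, e.2 = e'.2 → q e = q e' → e = e' := by
    intro e he e' he' h1 h2
    rcases hEcase e he with h3 | h3
    · have a1 := hREE e h3
      rcases hEcase e' he' with h4 | h4
      · have a2 := hREE e' h4
        simp only [q] at h2
        rw [if_neg (hne e a1), if_neg (hne e' a2)] at h2
        by_cases s1 : e.2 ∈ H.verts ∧ ψ e = 0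
        · by_cases s2 : e'.2 ∈ H.verts ∧ ψ e' = 0
          · exact hψ2 e a1 e' a2 h1 (by omega)
          · simp only [p] at h2
            rw [if_pos s1, if_neg s2] at h2
            omega
        · by_cases s2 : e'.2 ∈ H.verts ∧ ψ e' = 0
          · simp only [p] at h2
            rw [if_neg s1, if_pos s2] at h2
            omega
          · simp only [p] at h2
            rw [if_neg s1, if_neg s2] at h2
            exact hψ2 e a1 e' a2 h1 (by omega)
      · exfalso
        rw [hPE] at h4
        rw [hqr e (hne e a1), hpn e (fun h => h4.2.2 (by rw [← h1]; exact h.1))] at h2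
        have := hψ e a1
        by_cases hw : W e'.2
        · rw [hqw e' h4.1 hw] at h2
          omega
        · rw [hqn e' h4.1 hw] at h2
          omega
    · rcases hEcase e' he' with h4 | h4
      · exfalso
        have a2 := hREE e' h4
        rw [hPE] at h3
        rw [hqr e' (hne e' a2), hpn e' (fun h => h3.2.2 (by rw [h1]; exact h.1))] at h2
        have := hψ e' a2
        by_cases hw : W e.2
        · rw [hqw e h3.1 hw] at h2
          omega
        · rw [hqn e h3.1 hw] at h2
          omega
      · rw [hPE] at h3 h4
        exact Prod.ext (by rw [h3.1, h4.1, h1]) h1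
  -- the degree of a vertex of `H`
  have hdegH : ∀ v ∈ H.verts, ∀ S : Finset (V × V), (∀ e ∈ S, e ∈ EE G H A ∧ e.2 = v) →
      S.card + 1 ≤ (G.neighborSet v).ncard := by
    intro v hv S hS
    have h1 : S.card = (S.image Prod.fst).card := by
      rw [Finset.card_image_of_injOn]
      intro a ha b hb hab
      exact Prod.ext hab ((hS a ha).2.trans (hS b hb).2.symm)
    have h2 : mate H v ∉ S.image Prod.fst := by
      intro h
      rw [Finset.mem_image] at h
      obtain ⟨e, he, h3⟩ := h
      apply (mem_EE.1 (hS e he).1).2.2
      rw [h3, (hS e he).2]
      exact (mate_adj hH hv).symm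
    have h3 := nb_card G v (insert (mate H v) (S.image Prod.fst)) (by
      intro w hw
      rw [Finset.mem_insert] at hw
      rcases hw with rfl | hw
      · exact H.adj_sub (mate_adj hH hv)
      · rw [Finset.mem_image] at hw
        obtain ⟨e, he, rfl⟩ := hw
        rw [← (hS e he).2]
        exact (mem_EE.1 (hS e he).1).2.1.symm)
    rw [Finset.card_insert_of_notMem h2, ← h1] at h3
    exact h3
  obtain ⟨φ, hφ⟩ := lists E L p q hp1 hq2
    (fun e => if e.1 = e.2 then 0 else if e.1 ∈ H.verts then
        (if g e.1 ≠ α then D - 1 - (ψ e + 1) else D - (ψ e + 1))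
      else if e.2 ∈ H.verts then (if ψ e = 0 then 1 else D - (ψ e + 1))
      else (if ψ e = D - 1 then 0 else D - ψ e))
    (fun e => if e.1 = e.2 then (if W e.2 then D - 1 else D)
      else if e.2 ∈ H.verts then (if ψ e = 0 then (if fe e.2 = α then D - 2 else D - 3)
        else (if ψ e = D - 1 then D - 2 else ψ e - 1))
      else (if W e.2 ∧ ψ e = D - 1 then ψ e + 1 else ψ e))
    (by
      intro e he S hS
      rcases hEcase e he with h3 | h3
      · have a1 := hREE e h3
        rw [if_neg (hne e a1)]
        have hSR : ∀ e' ∈ S, e' ∈ RE := fun e' he' => hfst e h3 e' (hS e' he').1 (hS e' he').2.1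
        have hin : ∀ e' ∈ S, ∀ e'' ∈ S, ψ e' = ψ e'' → e' = e'' := by
          intro e' he' e'' he'' h
          exact hψ1 e' (hREE _ (hSR e' he')) e'' (hREE _ (hSR e'' he''))
            ((hS e' he').2.1.trans (hS e'' he'').2.1.symm) h
        by_cases hx : e.1 ∈ H.verts
        · rw [if_pos hx]
          have hns : ∀ e' ∈ EE G H A, e'.1 = e.1 → ¬ (e'.2 ∈ H.verts ∧ ψ e' = 0) := by
            intro e' he' h h'
            exact hbH e' he' (by rw [h]; exact hx) h'.1
          have hlt : ∀ e' ∈ S, ψ e < ψ e' := by
            intro e' he'
            have h5 := (hS e' he').2.2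
            rw [hpn e (hns e a1 rfl), hpn e' (hns e' (hREE _ (hSR e' he')) (hS e' he').2.1)] at h5
            omega
          split_ifs with hga
          · have h1 := card_le_inj S ψ (Finset.Ico (ψ e + 1) (D - 1)) (by
              intro e' he'
              rw [Finset.mem_Ico]
              refine ⟨hlt e' he', ?_⟩
              have h6 := (Finset.mem_filter.1 (hSR e' he')).2
              have h7 := hψ e' (hREE _ (hSR e' he'))
              have h8 : ψ e' ≠ D - 1 := by
                intro h9
                apply h6
                rw [(hS e' he').2.1]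
                exact ⟨hx, hga, h9⟩
              omega) hin
            rwa [Nat.card_Ico] at h1
          · have h1 := card_le_inj S ψ (Finset.Ico (ψ e + 1) D) (by
              intro e' he'
              rw [Finset.mem_Ico]
              exact ⟨hlt e' he', hψ e' (hREE _ (hSR e' he'))⟩) hin
            rwa [Nat.card_Ico] at h1
        · rw [if_neg hx]
          by_cases hy : e.2 ∈ H.verts
          · rw [if_pos hy]
            have hns : ∀ e' ∈ S, ¬ (e'.2 ∈ H.verts ∧ ψ e' = 0) := by
              intro e' he' h'
              have h4 := hspec e a1 e' (hREE _ (hSR e' he')) (hS e' he').2.1.symm hy h'.1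
              have h5 := (hS e' he').2.2
              rw [h4] at h5
              exact absurd h5 (lt_irrefl _)
            split_ifs with h0
            · have h1 := card_le_inj S ψ {D - 1} (by
                intro e' he'
                rw [Finset.mem_singleton]
                have h5 := (hS e' he').2.2
                rw [hps e hy h0, hpn e' (hns e' he')] at h5
                have h7 := hψ e' (hREE _ (hSR e' he'))
                omega) hin
              rwa [Finset.card_singleton] at h1
            · have h1 := card_le_inj S ψ (Finset.Ico (ψ e + 1) D) (by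
                intro e' he'
                rw [Finset.mem_Ico]
                have h5 := (hS e' he').2.2
                rw [hpn e (fun h => h0 h.2), hpn e' (hns e' he')] at h5
                exact ⟨by omega, hψ e' (hREE _ (hSR e' he'))⟩) hin
              rwa [Nat.card_Ico] at h1
          · rw [if_neg hy]
            have h1 := hψ e a1
            split_ifs with h0
            · have h2 : S = ∅ := by
                rw [Finset.eq_empty_iff_forall_notMem]
                intro e' he'
                have h5 := (hS e' he').2.2
                rw [hpn e (fun h => hy h.1)] at h5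
                have h7 := hψ e' (hREE _ (hSR e' he'))
                by_cases s1 : e'.2 ∈ H.verts ∧ ψ e' = 0
                · rw [hps e' s1.1 s1.2] at h5
                  omega
                · rw [hpn e' s1] at h5
                  omega
              rw [h2, Finset.card_empty]
            · have hinp : ∀ e' ∈ S, ∀ e'' ∈ S, p e' = p e'' → e' = e'' := by
                intro e' he' e'' he'' h
                exact hp1 e' (hS e' he').1 e'' (hS e'' he'').1
                  ((hS e' he').2.1.trans (hS e'' he'').2.1.symm) h
              have h2 := card_le_inj S (fun e' => if e'.2 ∈ H.verts ∧ ψ e' = 0 then D else ψ e')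
                (Finset.Ico (ψ e + 1) (D + 1)) (by
                intro e' he'
                rw [Finset.mem_Ico]
                have h5 := (hS e' he').2.2
                rw [hpn e (fun h => hy h.1)] at h5
                have h7 := hψ e' (hREE _ (hSR e' he'))
                by_cases s1 : e'.2 ∈ H.verts ∧ ψ e' = 0
                · rw [hps e' s1.1 s1.2] at h5
                  simp only [if_pos s1]
                  omega
                · rw [hpn e' s1] at h5
                  simp only [if_neg s1]
                  omega) (by
                intro e' he' e'' he'' h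
                have h7 := hψ e' (hREE _ (hSR e' he'))
                have h8 := hψ e'' (hREE _ (hSR e'' he''))
                have hfs := (hS e' he').2.1.trans (hS e'' he'').2.1.symm
                split_ifs at h with s1 s2 s2
                · exact hspec e' (hREE _ (hSR e' he')) e'' (hREE _ (hSR e'' he'')) hfs s1.1 s2.1
                · omega
                · omega
                · exact hin e' he' e'' he'' h)
              rw [Nat.card_Ico] at h2
              omega
      · have h4 := (hPE e).1 h3
        rw [if_pos h4.1]
        have h2 : S = ∅ := by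
          rw [Finset.eq_empty_iff_forall_notMem]
          intro e' he'
          have h5 := hS e' he'
          have h6 := hfstP e h3 e' h5.1 h5.2.1
          rw [h6] at h5
          exact absurd h5.2.2 (lt_irrefl _)
        rw [h2, Finset.card_empty])
    (by
      intro e he S hS
      -- the real edges with the same second coordinate
      have hinR : ∀ e' ∈ S, ∀ e'' ∈ S, e' ∈ RE → e'' ∈ RE → ψ e' = ψ e'' → e' = e'' := by
        intro e' he' e'' he'' r1 r2 h
        exact hψ2 e' (hREE _ r1) e'' (hREE _ r2)
          ((hS e' he').2.1.trans (hS e'' he'').2.1.symm) h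
      rcases hEcase e he with h3 | h3
      · have a1 := hREE e h3
        have hqe : q e = p e := by
          simp only [q]
          rw [if_neg (hne e a1)]
        rw [if_neg (hne e a1)]
        by_cases hy : e.2 ∈ H.verts
        · rw [if_pos hy]
          have hSR : ∀ e' ∈ S, e' ∈ RE := by
            intro e' he'
            rcases hEcase e' (hS e' he').1 with h4 | h4
            · exact h4
            · rw [hPE, (hS e' he').2.1] at h4
              exact absurd hy h4.2.2
          have hqe' : ∀ e' ∈ S, q e' = p e' := by
            intro e' he'
            simp only [q]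
            rw [if_neg (hne e' (hREE _ (hSR e' he')))]
          have hin : ∀ e' ∈ S, ∀ e'' ∈ S, ψ e' = ψ e'' → e' = e'' :=
            fun e' he' e'' he'' h => hinR e' he' e'' he'' (hSR e' he') (hSR e'' he'') h
          have heS : e ∉ S := fun h => absurd (hS e h).2.2 (lt_irrefl _)
          split_ifs with h0 hfa hl
          · -- special, `H`-edge coloured `α`
            have h1 := card_le_inj S ψ (Finset.Ico 1 (D - 1)) (by
              intro e' he'
              rw [Finset.mem_Ico]
              have h5 := (hS e' he').2.2
              rw [hqe, hqe' e' he', hps e hy h0] at h5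
              have h7 := hψ e' (hREE _ (hSR e' he'))
              have hy' : e'.2 ∈ H.verts := by
                rw [(hS e' he').2.1]
                exact hy
              have h8 : ψ e' ≠ 0 := by
                intro h9
                rw [hps e' hy' h9] at h5
                omega
              rw [hpn e' (fun h => h8 h.2)] at h5
              omega) hin
            rw [Nat.card_Ico] at h1
            omega
          · -- special
            have hlt : ∀ e' ∈ S, 1 ≤ ψ e' ∧ ψ e' < D - 1 := by
              intro e' he'
              have h5 := (hS e' he').2.2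
              rw [hqe, hqe' e' he', hps e hy h0] at h5
              have h7 := hψ e' (hREE _ (hSR e' he'))
              have hy' : e'.2 ∈ H.verts := by
                rw [(hS e' he').2.1]
                exact hy
              have h8 : ψ e' ≠ 0 := by
                intro h9
                rw [hps e' hy' h9] at h5
                omega
              rw [hpn e' (fun h => h8 h.2)] at h5
              omega
            rcases (hD e.2).lt_or_eq with hlt2 | heq
            · have h1 := hdegH e.2 hy (insert e S) (by
                intro e' he'
                rw [Finset.mem_insert] at he'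
                rcases he' with rfl | he'
                · exact ⟨a1, rfl⟩
                · exact ⟨hREE _ (hSR e' he'), (hS e' he').2.1⟩)
              rw [Finset.card_insert_of_notMem heS] at h1
              omega
            · obtain ⟨z, hz1, hz2⟩ := hcov e.2 hy (hsndA e a1) heq hfa
              have hzS : (z, e.2) ∉ S := by
                intro h
                have := (hlt _ h).2
                omega
              have hze : (z, e.2) ≠ e := by
                intro h
                rw [h] at hz2
                omega
              have h1 := hdegH e.2 hy (insert e (insert (z, e.2) S)) (by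
                intro e' he'
                rw [Finset.mem_insert, Finset.mem_insert] at he'
                rcases he' with rfl | rfl | he'
                · exact ⟨a1, rfl⟩
                · exact ⟨hz1, rfl⟩
                · exact ⟨hREE _ (hSR e' he'), (hS e' he').2.1⟩)
              rw [Finset.card_insert_of_notMem, Finset.card_insert_of_notMem hzS] at h1
              · omega
              · rw [Finset.mem_insert, not_or]
                exact ⟨fun h => hze h.symm, heS⟩
          · -- the last class
            have h1 := hdegH e.2 hy (insert e S) (by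
              intro e' he'
              rw [Finset.mem_insert] at he'
              rcases he' with rfl | he'
              · exact ⟨a1, rfl⟩
              · exact ⟨hREE _ (hSR e' he'), (hS e' he').2.1⟩)
            rw [Finset.card_insert_of_notMem heS] at h1
            have := hD e.2
            omega
          · have h1 := card_le_inj S ψ (Finset.Ico 1 (ψ e)) (by
              intro e' he'
              rw [Finset.mem_Ico]
              have h5 := (hS e' he').2.2
              rw [hqe, hqe' e' he', hpn e (fun h => h0 h.2)] at h5
              have h7 := hψ e a1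
              have hy' : e'.2 ∈ H.verts := by
                rw [(hS e' he').2.1]
                exact hy
              have h8 : ψ e' ≠ 0 := by
                intro h9
                rw [hps e' hy' h9] at h5
                omega
              rw [hpn e' (fun h => h8 h.2)] at h5
              omega) hin
            rw [Nat.card_Ico] at h1
            omega
        · rw [if_neg hy]
          have hpe : q e = 2 * ψ e := by
            rw [hqe]
            simp only [p]
            rw [if_neg (fun h => hy h.1)]
          have hreal : ∀ e' ∈ S, e' ∈ RE → ψ e' < ψ e := by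
            intro e' he' hr
            have h5 := (hS e' he').2.2
            rw [hpe, hqr e' (hne e' (hREE _ hr)),
              hpn e' (fun h => hy (by rw [← (hS e' he').2.1]; exact h.1))] at h5
            omega
          have hpend : ∀ e' ∈ S, e' ∉ RE → W e.2 ∧ ψ e = D - 1 ∧ e' = (e.2, e.2) := by
            intro e' he' hr
            have h4 := (hEcase e' (hS e' he').1).resolve_left hr
            rw [hPE] at h4
            have h5 := (hS e' he').2.2
            have h7 := hψ e a1
            by_cases hw : W e'.2
            · rw [hpe, hqw e' h4.1 hw] at h5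
              rw [(hS e' he').2.1] at hw
              exact ⟨hw, by omega, Prod.ext (h4.1.trans (hS e' he').2.1) (hS e' he').2.1⟩
            · rw [hpe, hqn e' h4.1 hw] at h5
              omega
          have hreal' : ((S.filter (fun e' => e' ∈ RE))).card ≤ ψ e := by
            have h1 := card_le_inj (S.filter (fun e' => e' ∈ RE)) ψ (Finset.range (ψ e)) (by
              intro e' he'
              rw [Finset.mem_filter] at he'
              rw [Finset.mem_range]
              exact hreal e' he'.1 he'.2) (by
              intro e' he' e'' he'' h
              rw [Finset.mem_filter] at he' he''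
              exact hinR e' he'.1 e'' he''.1 he'.2 he''.2 h)
            rwa [Finset.card_range] at h1
          have hsplit := Finset.card_filter_add_card_filter_not (s := S) (fun e' => e' ∈ RE)
          split_ifs with hw
          · have h1 : (S.filter (fun e' => ¬ e' ∈ RE)).card ≤ 1 := by
              rw [Finset.card_le_one]
              intro a ha b hb
              rw [Finset.mem_filter] at ha hb
              rw [(hpend a ha.1 ha.2).2.2, (hpend b hb.1 hb.2).2.2]
            omega
          · have h1 : (S.filter (fun e' => ¬ e' ∈ RE)) = ∅ := by
              rw [Finset.filter_eq_empty_iff]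
              intro e' he' hr
              have := hpend e' he' hr
              exact hw ⟨this.1, this.2.1⟩
            rw [h1, Finset.card_empty] at hsplit
            omega
      · have h4 := (hPE e).1 h3
        rw [if_pos h4.1]
        have hSR : ∀ e' ∈ S, e' ∈ RE := by
          intro e' he'
          rcases hEcase e' (hS e' he').1 with h5 | h5
          · exact h5
          · exfalso
            rw [hPE] at h5
            have h6 : e' = e := Prod.ext (by rw [h5.1, h4.1, (hS e' he').2.1]) (hS e' he').2.1
            have h7 := (hS e' he').2.2
            rw [h6] at h7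
            exact absurd h7 (lt_irrefl _)
        have hin : ∀ e' ∈ S, ∀ e'' ∈ S, ψ e' = ψ e'' → e' = e'' :=
          fun e' he' e'' he'' h => hinR e' he' e'' he'' (hSR e' he') (hSR e'' he'') h
        split_ifs with hw
        · have h1 := card_le_inj S ψ (Finset.range (D - 1)) (by
            intro e' he'
            rw [Finset.mem_range]
            have h5 := (hS e' he').2.2
            rw [hqr e' (hne e' (hREE _ (hSR e' he'))), hqw e h4.1 hw,
              hpn e' (fun h => h4.2.2 (by rw [← (hS e' he').2.1]; exact h.1))] at h5
            have := hψ e' (hREE _ (hSR e' he'))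
            omega) hin
          rwa [Finset.card_range] at h1
        · have h1 := card_le_inj S ψ (Finset.range D) (by
            intro e' he'
            rw [Finset.mem_range]
            exact hψ e' (hREE _ (hSR e' he'))) hin
          rwa [Finset.card_range] at h1)
    (by
      intro e he
      rcases hEcase e he with h3 | h3
      · have a1 := hREE e h3
        have a2 := mem_EE.1 a1
        have a3 := hψ e a1
        rw [if_neg (hne e a1), if_neg (hne e a1)]
        have hcard : D + 2 ≤ (L e).card + (({α} ∪ ((if e.1 ∈ H.verts then {g e.1, fe e.1} else ∅) ∪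
            (if e.2 ∈ H.verts then {g e.2, fe e.2} else ∅)) : Finset ℕ)).card := by
          have := Finset.le_card_sdiff ({α} ∪ ((if e.1 ∈ H.verts then {g e.1, fe e.1} else ∅) ∪
            (if e.2 ∈ H.verts then {g e.2, fe e.2} else ∅)) : Finset ℕ) (range (D + 2))
          rw [Finset.card_range] at this
          simp only [L]
          rw [if_neg (hne e a1)]
          omega
        by_cases hx : e.1 ∈ H.verts
        · have hy := hbH e a1 hx
          rw [if_pos hx, if_neg hy] at hcard
          rw [if_pos hx, if_neg hy]
          rw [Finset.union_empty] at hcard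
          by_cases hga : g e.1 ≠ α
          · rw [if_pos hga]
            have h5 : ψ e ≠ D - 1 := by
              intro h6
              exact (Finset.mem_filter.1 h3).2 ⟨hx, hga, h6⟩
            rw [if_neg (fun h => h5 h.2)]
            have h6 : ({α} ∪ {g e.1, fe e.1} : Finset ℕ).card ≤ 3 := by
              refine (Finset.card_union_le _ _).trans ?_
              have := Finset.card_le_two (a := g e.1) (b := fe e.1)
              simp only [Finset.card_singleton]
              omega
            omega
          · rw [if_neg hga]
            rw [not_not] at hga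
            have h5 : ¬ W e.2 := by
              rintro ⟨u, hu1, hu2, hu3, hu4⟩
              have := only_one hA hH hu1 hx hu3.symm a2.2.1.symm
              rw [this] at hu4
              exact hu4 hga
            rw [if_neg (fun h => h5 h.1)]
            have h6 : ({α} ∪ {g e.1, fe e.1} : Finset ℕ).card ≤ 2 := by
              rw [hga]
              have h8 : ({α} ∪ {α, fe e.1} : Finset ℕ) = {α, fe e.1} := by
                ext t
                simp only [Finset.mem_union, Finset.mem_insert, Finset.mem_singleton]
                tauto
              rw [h8]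
              exact Finset.card_le_two
            omega
        · rw [if_neg hx]
          by_cases hy : e.2 ∈ H.verts
          · rw [if_neg hx, if_pos hy, Finset.empty_union] at hcard
            rw [if_pos hy, if_pos hy]
            have h6 : ({α} ∪ {g e.2, fe e.2} : Finset ℕ).card ≤ 3 := by
              refine (Finset.card_union_le _ _).trans ?_
              have := Finset.card_le_two (a := g e.2) (b := fe e.2)
              simp only [Finset.card_singleton]
              omega
            have h7 : fe e.2 = α → ({α} ∪ {g e.2, fe e.2} : Finset ℕ).card ≤ 2 := by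
              intro h
              rw [h]
              have h8 : ({α} ∪ {g e.2, α} : Finset ℕ) = {g e.2, α} := by
                ext t
                simp only [Finset.mem_union, Finset.mem_insert, Finset.mem_singleton]
                tauto
              rw [h8]
              exact Finset.card_le_two
            -- the degree is at least two
            have hdeg2 : 3 ≤ D ∨ fe e.2 = α ∨ ψ e ≠ 0 := by
              by_contra hcon
              push Not at hcon
              obtain ⟨c1, c2, c3⟩ := hcon
              rcases (hD e.2).lt_or_eq with hlt2 | heq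
              · have h1 := hdegH e.2 hy {e} (by
                  intro e' he'
                  rw [Finset.mem_singleton] at he'
                  subst he'
                  exact ⟨a1, rfl⟩)
                rw [Finset.card_singleton] at h1
                omega
              · obtain ⟨z, hz1, hz2⟩ := hcov e.2 hy (hsndA e a1) heq c2
                have hze : (z, e.2) ≠ e := by
                  intro h
                  rw [h] at hz2
                  omega
                have h1 := hdegH e.2 hy {e, (z, e.2)} (by
                  intro e' he'
                  rw [Finset.mem_insert, Finset.mem_singleton] at he'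
                  rcases he' with rfl | rfl
                  · exact ⟨a1, rfl⟩
                  · exact ⟨hz1, rfl⟩)
                rw [Finset.card_pair (fun h => hze h.symm)] at h1
                omega
            by_cases h0 : ψ e = 0
            · rw [if_pos h0, if_pos h0]
              by_cases hfa : fe e.2 = α
              · have := h7 hfa
                rw [if_pos hfa]
                omega
              · rw [if_neg hfa]
                have : 3 ≤ D := by
                  rcases hdeg2 with h | h | h
                  · exact h
                  · exact absurd h hfa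
                  · exact absurd h0 h
                omega
            · rw [if_neg h0, if_neg h0]
              split_ifs
              · omega
              · omega
          · rw [if_neg hx, if_neg hy, Finset.union_empty, Finset.union_empty,
              Finset.card_singleton] at hcard
            rw [if_neg hy, if_neg hy]
            split_ifs with h5 h6 h6
            · omega
            · omega
            · exact absurd h6.2 h5
            · omega
      · have h4 := (hPE e).1 h3
        rw [if_pos h4.1, if_pos h4.1]
        have hcard : D + 2 ≤ (L e).card + (({α} ∪ (nbU e.2).image g : Finset ℕ)).card := by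
          have := Finset.le_card_sdiff ({α} ∪ (nbU e.2).image g : Finset ℕ) (range (D + 2))
          rw [Finset.card_range] at this
          simp only [L]
          rw [if_pos h4.1]
          omega
        have h5 : (nbU e.2).card ≤ 1 := by
          rw [Finset.card_le_one]
          intro a ha b hb
          simp only [nbU, Finset.mem_filter, Finset.mem_univ, true_and] at ha hb
          exact only_one hA hH ha.1 hb.1 ha.2.2.symm hb.2.2.symm
        by_cases hw : W e.2
        · rw [if_pos hw]
          have h6 := Finset.card_union_le {α} ((nbU e.2).image g)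
          have h7 := Finset.card_image_le (s := nbU e.2) (f := g)
          rw [Finset.card_singleton] at h6
          omega
        · rw [if_neg hw]
          have h6 : ({α} ∪ (nbU e.2).image g : Finset ℕ) = {α} := by
            ext t
            simp only [Finset.mem_union, Finset.mem_singleton, Finset.mem_image, nbU,
              Finset.mem_filter, Finset.mem_univ, true_and, or_iff_left_iff_imp]
            rintro ⟨u, hu, rfl⟩
            by_contra h7
            exact hw ⟨u, hu.1, hu.2.1, hu.2.2, h7⟩
          rw [h6, Finset.card_singleton] at hcard
          omega)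
  -- the colouring
  let αe : V × V → Prop := fun e => e.1 ∈ H.verts ∧ g e.1 ≠ α ∧ ψ e = D - 1
  let Φ : V × V → ℕ := fun e => if αe e then α else φ e
  let c : V → ℕ := fun v => if v ∈ H.verts then g v else if v ∈ A then α else φ (v, v)
  have hcH : ∀ v ∈ H.verts, c v = g v := fun v hv => by simp only [c]; rw [if_pos hv]
  have hcA : ∀ v, v ∉ H.verts → v ∈ A → c v = α := fun v h1 h2 => by
    simp only [c]; rw [if_neg h1, if_pos h2]
  have hcB : ∀ v, v ∉ H.verts → v ∉ A → c v = φ (v, v) := fun v h1 h2 => by
    simp only [c]; rw [if_neg h1, if_neg h2]
  have hpin : ∀ v, v ∉ H.verts → v ∉ A → (v, v) ∈ E := fun v h1 h2 =>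
    Finset.mem_union_right _ ((hPE _).2 ⟨rfl, h2, h1⟩)
  have hpL : ∀ v, v ∉ H.verts → v ∉ A → φ (v, v) < D + 2 ∧ φ (v, v) ≠ α ∧
      ∀ u ∈ H.verts, u ∈ A → G.Adj u v → φ (v, v) ≠ g u := by
    intro v h1 h2
    have h3 := (hφ _ (hpin v h1 h2)).1
    simp only [L, if_true, Finset.mem_sdiff, Finset.mem_range, Finset.mem_union,
      Finset.mem_singleton, Finset.mem_image, not_or] at h3
    refine ⟨h3.1, h3.2.1, fun u hu huA huv h4 => h3.2.2 ⟨u, ?_, h4.symm⟩⟩
    simp only [nbU, Finset.mem_filter, Finset.mem_univ, true_and]
    exact ⟨hu, huA, huv⟩
  have hrin : ∀ e ∈ EE G H A, ¬ αe e → e ∈ E := fun e he h =>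
    Finset.mem_union_left _ (Finset.mem_filter.2 ⟨he, h⟩)
  have hrL : ∀ e ∈ EE G H A, ¬ αe e → φ e < D + 2 ∧ φ e ≠ α ∧
      (e.1 ∈ H.verts → φ e ≠ g e.1 ∧ φ e ≠ fe e.1) ∧
      (e.2 ∈ H.verts → φ e ≠ g e.2 ∧ φ e ≠ fe e.2) := by
    intro e he h
    have h3 := (hφ _ (hrin e he h)).1
    simp only [L, if_neg (hne e he), Finset.mem_sdiff, Finset.mem_range, Finset.mem_union,
      Finset.mem_singleton, not_or] at h3
    refine ⟨h3.1, h3.2.1, fun h4 => ?_, fun h4 => ?_⟩
    · have h5 := h3.2.2.1
      rw [if_pos h4, Finset.mem_insert, Finset.mem_singleton, not_or] at h5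
      exact h5
    · have h5 := h3.2.2.2
      rw [if_pos h4, Finset.mem_insert, Finset.mem_singleton, not_or] at h5
      exact h5
  have hΦα : ∀ e, αe e → Φ e = α := fun e h => by simp only [Φ]; rw [if_pos h]
  have hΦφ : ∀ e, ¬ αe e → Φ e = φ e := fun e h => by simp only [Φ]; rw [if_neg h]
  have hmem : ∀ x y, x ∈ A → G.Adj x y → ¬ H.Adj x y → (x, y) ∈ EE G H A :=
    fun x y h1 h2 h3 => mem_EE.2 ⟨h1, h2, h3⟩
  apply assemble hA hcol c (k := D + 2) ?_ hcH ?_ Φ
  · intro x y hx hxy hn
    have he := hmem x y hx hxy hn
    have hyA : y ∉ A := (hA x y hxy).1 hx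
    by_cases hae : αe (x, y)
    · rw [hΦα _ hae]
      obtain ⟨b1, b2, b3⟩ := hae
      have hy : y ∉ H.verts := hbH _ he b1
      refine ⟨hα, ?_, ?_, ?_, ?_⟩
      · rw [hcH x b1]
        exact fun h => b2 h.symm
      · rw [hcB y hy hyA]
        exact (hpL y hy hyA).2.1.symm
      · intro v hv h
        apply hno x y b1 he _ b3
        rw [mate_eq hH hv]
        exact h.symm
      · intro u hu
        exact absurd (H.edge_vert hu) hy
    · rw [hΦφ _ hae]
      obtain ⟨b1, b2, b3, b4⟩ := hrL _ he hae
      refine ⟨b1, ?_, ?_, ?_, ?_⟩
      · by_cases hxH : x ∈ H.verts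
        · rw [hcH x hxH]
          exact (b3 hxH).1
        · rw [hcA x hxH hx]
          exact b2
      · by_cases hyH : y ∈ H.verts
        · rw [hcH y hyH]
          exact (b4 hyH).1
        · rw [hcB y hyH hyA]
          exact (hφ _ (hpin y hyH hyA)).2 _ (hrin _ he hae)
            (fun h => hne _ he (by rw [(Prod.ext_iff.1 h).1])) (Or.inr rfl)
      · intro v hv
        have := (b3 (H.edge_vert hv)).2
        simp only [fe, mate_eq hH hv] at this
        exact this
      · intro u hu
        have := (b4 (H.edge_vert hu)).2
        simp only [fe, mate_eq hH hu] at this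
        exact this
  · intro x y y' hx h1 h2 h3 h4 hyy
    have e1 := hmem x y hx h1 h2
    have e2 := hmem x y' hx h3 h4
    by_cases a1 : αe (x, y)
    · by_cases a2 : αe (x, y')
      · exfalso
        have := hψ1 _ e1 _ e2 rfl (a1.2.2.trans a2.2.2.symm)
        exact hyy (Prod.ext_iff.1 this).2
      · rw [hΦα _ a1, hΦφ _ a2]
        exact (hrL _ e2 a2).2.1.symm
    · by_cases a2 : αe (x, y')
      · rw [hΦφ _ a1, hΦα _ a2]
        exact (hrL _ e1 a1).2.1
      · rw [hΦφ _ a1, hΦφ _ a2]
        exact ((hφ _ (hrin _ e1 a1)).2 _ (hrin _ e2 a2)
          (fun h => hyy (Prod.ext_iff.1 h).2.symm) (Or.inl rfl)).symm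
  · intro x x' y hx hx' h1 h2 h3 h4 hxx
    have e1 := hmem x y hx h1 h2
    have e2 := hmem x' y hx' h3 h4
    by_cases a1 : αe (x, y)
    · by_cases a2 : αe (x', y)
      · exfalso
        have := hψ2 _ e1 _ e2 rfl (a1.2.2.trans a2.2.2.symm)
        exact hxx (Prod.ext_iff.1 this).1
      · rw [hΦα _ a1, hΦφ _ a2]
        exact (hrL _ e2 a2).2.1.symm
    · by_cases a2 : αe (x', y)
      · rw [hΦφ _ a1, hΦα _ a2]
        exact (hrL _ e1 a1).2.1
      · rw [hΦφ _ a1, hΦφ _ a2]
        exact ((hφ _ (hrin _ e1 a1)).2 _ (hrin _ e2 a2)
          (fun h => hxx (Prod.ext_iff.1 h).1.symm) (Or.inr rfl)).symm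
  · intro v
    by_cases hv : v ∈ H.verts
    · rw [hcH v hv]
      exact hg v hv
    · by_cases hvA : v ∈ A
      · rw [hcA v hv hvA]
        exact hα
      · rw [hcB v hv hvA]
        exact (hpL v hv hvA).1
  · have key : ∀ x y, x ∈ A → G.Adj x y → c x ≠ c y := by
      intro x y hx h
      have hyA : y ∉ A := (hA x y h).1 hx
      by_cases hxH : x ∈ H.verts
      · by_cases hyH : y ∈ H.verts
        · rw [hcH x hxH, hcH y hyH]
          exact hgg x hxH y hyH (adj_verts hH hxH hyH h)
        · rw [hcH x hxH, hcB y hyH hyA]
          exact ((hpL y hyH hyA).2.2 x hxH hx h).symm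
      · rw [hcA x hxH hx]
        by_cases hyH : y ∈ H.verts
        · rw [hcH y hyH]
          exact (hgα y hyH hyA).symm
        · rw [hcB y hyH hyA]
          exact (hpL y hyH hyA).2.1.symm
    intro u v h
    by_cases hu : u ∈ A
    · exact key u v hu h
    · exact (key v u (mem_side hA h hu) h.symm).symm

end Pool.Agent.Q177.TC
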