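import Pool.Agent.Q177.TC.Bad

/-!
# Matchings with few edges
-/

set_option autoImplicit false

namespace Pool.Agent.Q177.TC

open Pool.Agent.Q241.DM Finset

/-- Distance-3 matchings with at most `(D + 1) / 2` edges. -/
theorem fewEdges {V : Type} [Fintype V] {G : SimpleGraph V} {H : G.Subgraph} {A : Set V}
    (hA : Side G A) (D : ℕ) (hD : ∀ v, (G.neighborSet v).ncard ≤ D)
    (hH : DistanceThreeMatching G H) (hfew : 2 * H.edgeSet.ncard ≤ D + 1) :
    AllExtend G H (D + 2) := by
  classical
  intro g f hcol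
  rcases Nat.lt_or_ge D 2 with hD2 | hD2
  · exact small hA D hD2 hD hH g f hcol
  let VB : Finset V := univ.filter (fun v => v ∈ H.verts ∧ v ∉ A)
  have hVB : ∀ v, v ∈ VB ↔ v ∈ H.verts ∧ v ∉ A := fun v => by
    simp only [VB, Finset.mem_filter, Finset.mem_univ, true_and]
  have h1 : VB.card ≤ H.edgeSet.ncard := by
    rw [← Set.ncard_coe_finset]
    refine Set.ncard_le_ncard_of_injOn (fun v => s(v, mate H v)) ?_ ?_ (Set.toFinite _)
    · intro v hv
      rw [Finset.mem_coe, hVB] at hv
      exact mate_adj hH hv.1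
    · intro v hv v' hv' h
      rw [Finset.mem_coe, hVB] at hv hv'
      have h2 : v ∈ s(v', mate H v') := by
        have h3 : s(v, mate H v) = s(v', mate H v') := h
        rw [← h3]
        simp
      rw [Sym2.mem_iff] at h2
      rcases h2 with h2 | h2
      · exact h2
      · exfalso
        apply hv.2
        rw [h2]
        exact mem_side hA (H.adj_sub (mate_adj hH hv'.1)) hv'.2
  obtain ⟨α, hα, hα'⟩ : ∃ α ∈ range (D + 2),
      α ∉ VB.image g ∪ VB.image (fun v => f s(v, mate H v)) := by
    apply Finset.exists_mem_notMem_of_card_lt_card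
    rw [Finset.card_range]
    have h2 := Finset.card_union_le (VB.image g) (VB.image (fun v => f s(v, mate H v)))
    have h3 := Finset.card_image_le (s := VB) (f := g)
    have h4 := Finset.card_image_le (s := VB) (f := fun v => f s(v, mate H v))
    omega
  rw [Finset.mem_union, not_or] at hα'
  refine few hA D hD hH ?_ g f hcol α (Finset.mem_range.1 hα) ?_ ?_
  · have h2 : {v | v ∈ H.verts ∧ v ∉ A ∧ (G.neighborSet v).ncard = D}.ncard ≤ VB.card := by
      rw [← Set.ncard_coe_finset]
      apply Set.ncard_le_ncard _ (Set.toFinite _)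
      intro v hv
      rw [Finset.mem_coe, hVB]
      exact ⟨hv.1, hv.2.1⟩
    omega
  · intro v hv hvA h
    apply hα'.1
    rw [← h]
    exact Finset.mem_image_of_mem _ ((hVB v).2 ⟨hv, hvA⟩)
  · intro e he h
    induction e using Sym2.ind with
    | _ x y =>
      have hxy : H.Adj x y := he
      apply hα'.2
      by_cases hx : x ∈ A
      · have hy := (hA x y (H.adj_sub hxy)).1 hx
        rw [← h, Finset.mem_image]
        refine ⟨y, (hVB y).2 ⟨H.edge_vert hxy.symm, hy⟩, ?_⟩
        rw [mate_eq hH hxy.symm, Sym2.eq_swap]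
      · rw [← h, Finset.mem_image]
        refine ⟨x, (hVB x).2 ⟨H.edge_vert hxy, hx⟩, ?_⟩
        rw [mate_eq hH hxy]

end Pool.Agent.Q177.TC
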